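import Pool.Agent.Lib.MP_3b3418_ag.PV.All1
import Pool.Agent.Lib.MP_3b3418_ag.PV.D.Tw
import Pool.Agent.Lib.MP_3b3418_ag.PV.D.Sk
import Pool.Agent.Lib.MP_3b3418_ag.PV.D.D1
import Pool.Agent.Lib.MP_3b3418_ag.PV.D.D2
import Pool.Agent.Lib.MP_3b3418_ag.PV.D.D0
import Pool.Agent.Lib.MP_3b3418_ag.PV.D.Sw
import Pool.Agent.Lib.MP_3b3418_ag.PV.D.Iv
import Pool.Agent.Lib.MP_3b3418_ag.PV.D.Bo
import Pool.Agent.Lib.MP_3b3418_ag.PV.D.RGa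
import Pool.Agent.Lib.MP_3b3418_ag.PV.D.Cons
import Pool.Agent.Lib.MP_3b3418_ag.PV.D.Eig
import Pool.Agent.Lib.MP_3b3418_ag.PV.D.Fil
import Pool.Agent.Lib.MP_3b3418_ag.PV.D.OneD
import Pool.Agent.Lib.MP_3b3418_ag.PV.M.Rd
import Pool.Agent.Lib.MP_3b3418_ag.PV.M.MR
import Pool.Agent.Lib.MP_3b3418_ag.PV.M.MS
import Pool.Agent.Lib.MP_3b3418_ag.PV.M.MW
import Pool.Agent.Lib.MP_3b3418_ag.PV.M.BA
import Pool.Agent.Lib.MP_3b3418_ag.PV.M.BB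
import Pool.Agent.Lib.MP_3b3418_ag.PV.M.BC
import Pool.Agent.Lib.MP_3b3418_ag.PV.M.Bt
import Pool.Agent.Lib.MP_3b3418_ag.PV.M.Ts
import Pool.Agent.Lib.MP_3b3418_ag.PV.M.Ds
import Pool.Agent.Lib.MP_3b3418_ag.PV.M.Cut
import Pool.Agent.Lib.MP_3b3418_ag.PV.M.K3
import Pool.Agent.Lib.MP_3b3418_ag.PV.M.K1
import Pool.Agent.Lib.MP_3b3418_ag.PV.M.Cb
import Pool.Agent.Lib.MP_3b3418_ag.PV.M.Fin

/-!
# Assembly
-/

set_option autoImplicit false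

namespace PV

theorem aSw : S_Sw := tSw (tTw tMor) (tSk tMor tEmb) tD1 tD2 tD0 aL aLA aLB aLC aLD aVZ

theorem aBo : S_Bo := tBo tMor (tTw tMor) aSw aL aCd tIv tEmb tInv aVZ

theorem aRGa : S_RGa := tRGa tMor

theorem aCon : S_Con := tCon aRGa tSLb tEmb

theorem aOneD : S_OneD := tOneD aRGa aCon aBo

theorem aFil : S_Fil := tFil tMor aRGa tEig aTri

theorem aRd : S_Rd := tRd tMor

theorem aMS : S_MS := tMS aRd

theorem aBC : S_BC := tBC aRGa (tBA tMor aRd) (tBB tMor aRd)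

theorem aTs : S_Ts := tTs tBt

theorem aK3 : S_K3 := tK3 aTs tDs (tCut tIv)

theorem aCb : S_Cb := tCb tBt aTs tDs aK3 (tK1 aTs tDs)

theorem aFin : S_Fin := tFin (tMR tMor aRd) aMS (tMW aMS) aFil aOneD aCb aBC

end PV
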