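import Pool.Agent.Lib.MP_3b3418_ag.PV.H.Mor
import Pool.Agent.Lib.MP_3b3418_ag.PV.H.CC
import Pool.Agent.Lib.MP_3b3418_ag.PV.H.Lift
import Pool.Agent.Lib.MP_3b3418_ag.PV.H.Ker
import Pool.Agent.Lib.MP_3b3418_ag.PV.H.VZ
import Pool.Agent.Lib.MP_3b3418_ag.PV.H.LA
import Pool.Agent.Lib.MP_3b3418_ag.PV.H.LB
import Pool.Agent.Lib.MP_3b3418_ag.PV.H.LC
import Pool.Agent.Lib.MP_3b3418_ag.PV.H.LD
import Pool.Agent.Lib.MP_3b3418_ag.PV.H.LF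
import Pool.Agent.Lib.MP_3b3418_ag.PV.H.Inv
import Pool.Agent.Lib.MP_3b3418_ag.PV.H.Perf
import Pool.Agent.Lib.MP_3b3418_ag.PV.H.Tri
import Pool.Agent.Lib.MP_3b3418_ag.PV.J.HRep
import Pool.Agent.Lib.MP_3b3418_ag.PV.J.Avg
import Pool.Agent.Lib.MP_3b3418_ag.PV.J.Acy
import Pool.Agent.Lib.MP_3b3418_ag.PV.J.Der
import Pool.Agent.Lib.MP_3b3418_ag.PV.J.Stp
import Pool.Agent.Lib.MP_3b3418_ag.PV.J.Chn
import Pool.Agent.Lib.MP_3b3418_ag.PV.J.Cd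
import Pool.Agent.Lib.MP_3b3418_ag.PV.J.SLa
import Pool.Agent.Lib.MP_3b3418_ag.PV.J.SLb
import Pool.Agent.Lib.MP_3b3418_ag.PV.J.SLc
import Pool.Agent.Lib.MP_3b3418_ag.PV.J.Emb
import Pool.Agent.Lib.MP_3b3418_ag.PV.J.L0
import Pool.Agent.Lib.MP_3b3418_ag.PV.J.AM
import Pool.Agent.Lib.MP_3b3418_ag.PV.J.VA
import Pool.Agent.Lib.MP_3b3418_ag.PV.J.L

/-!
# Assembly, parts H and J
-/

set_option autoImplicit false

namespace PV

theorem aVZ : S_VZ := tVZ tMor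

theorem aLift : S_Lift := tLift tMor

theorem aLA : S_LA := tLA tCC aLift tKer aVZ

theorem aLB : S_LB := tLB tCC aLift tKer aVZ

theorem aLC : S_LC := tLC tCC aLift tKer aVZ

theorem aLD : S_LD := tLD tCC aLift tKer aVZ

theorem aLF : S_LF := tLF tCC aLift tKer aVZ

theorem aTri : S_Tri := tTri tPerf tCC aLift tKer aVZ

theorem aHRep : S_HRep := tHRep tMor

theorem aAcy : S_Acy := tAcy tMor tAvg aHRep

theorem aStp : S_Stp := tStp (tDer tMor)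

theorem aCd : S_Cd := tCd aHRep aAcy aStp tChn aLA aVZ

theorem aL0 : S_L0 := tL0 tSLa tInv tEmb

theorem aAM : S_AM := tAM tMor tEmb

theorem aVA : S_VA := tVA aHRep aAcy aStp aLA aLF (tSLc tSLa) tEmb

theorem aL : S_L := tL aL0 aAM aVA aLA aVZ aHRep tEmb

end PV
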