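import Pool.Agent.Lib.MP_3b3418_ag.PV.Defs

/-!
# The cohomology of `⋀^j T Ñ` on the Springer resolution: the definitions of the final statement

`U = G × 𝔫 → Ñ = G ×_B 𝔫` is a principal bundle with group `B` (Zariski locally trivial) and `U` is
affine. The sheaf cohomology of a quasi-coherent sheaf `F` on `Ñ` is the cohomology of the complex of
the sections of (the inverse image of) `F` over the fibre powers `U ×_Ñ .. ×_Ñ U`, all of which are
affine. The `p+1`-st fibre power is the quotient of `G × 𝔫 × B^(p+1)` by the free action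
`(g, ν, β) b = (g b, b⁻¹ ν b, b⁻¹ β)` of `B`: the class of `(g, ν, β)` is the point
`((g β_0, β_0⁻¹ ν β_0), .., (g β_p, β_p⁻¹ ν β_p))` over the point `[g, ν]` of `Ñ`. The face maps omit an
entry of `β`.
-/

set_option autoImplicit false

namespace PV

open MP3s

/-- Cochains of degree `p` with values in `⋀^j T Ñ`: sections of `⋀^j T Ñ` over the fibre power
`U ×_Ñ .. ×_Ñ U` (`p + 1` factors), `U = G × 𝔫`. -/
structure Chain (m j p : ℕ) where
  /-- the value at the class of `(g, ν, β)`, an element of the exterior power of the tangent space of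
  `Ñ` at the class of `(g, ν)` -/
  val : SLm m → (ν : Nn m) → (Fin (p + 1) → Bo m) → Wedge j (Tan ν)
  /-- regularity: there is a polynomial lift -/
  regular : ∃ P : SLm m × Nn m × (Fin (p + 1) → Bo m) → Wedge j (Tot m), Reg P ∧
    ∀ g ν β, val g ν β = wmap j (proj ν) (P (g, ν, β))
  /-- equivariance under the Borel subgroup -/
  equivariant : ∀ (b : Bo m) (g : SLm m) (ν : Nn m) (β : Fin (p + 1) → Bo m),
    val (g * b.1) (conjN b.1 b.2 ν) (fun r => b⁻¹ * β r) =
      wmap j (conjT b.1 b.2 ν) (val g ν β)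

/-- `s` has weight `k` for the action of `ℂ^*` by dilations of the fibres (linear functions on the
fibres have weight `2` and constant vertical vector fields have weight `-2`). -/
def Chain.HasWeight {m j p : ℕ} (s : Chain m j p) (k : ℤ) : Prop :=
  ∀ c : ℂ, c ≠ 0 → ∀ (g : SLm m) (ν : Nn m) (β : Fin (p + 1) → Bo m),
    s.val g (scN (c ^ 2) ν) β = c ^ k • wmap j (dilT (c ^ 2) ν) (s.val g ν β)

/-- The value of the coboundary of `s` at the class of `(g, ν, β)`: the alternating sum over the
omission of an entry of `β`. -/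
noncomputable def Chain.dval {m j p : ℕ} (s : Chain m j p) (g : SLm m) (ν : Nn m)
    (β : Fin (p + 2) → Bo m) : Wedge j (Tan ν) :=
  ∑ k : Fin (p + 2), (-1 : ℂ) ^ (k : ℕ) • s.val g ν fun r => β (k.succAbove r)

/-- `s` is a cocycle. -/
def Chain.Closed {m j p : ℕ} (s : Chain m j p) : Prop :=
  ∀ (g : SLm m) (ν : Nn m) (β : Fin (p + 2) → Bo m), s.dval g ν β = 0

/-- `s` and `s'` represent the same class in the part of weight `k` of the cohomology: they are equal if
`p = 0`, and their difference is the coboundary of a cochain of weight `k` if `p > 0`. -/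
def SameClass {m j : ℕ} (k : ℤ) : {p : ℕ} → Chain m j p → Chain m j p → Prop
  | 0, s, s' => ∀ g ν β, s.val g ν β = s'.val g ν β
  | p + 1, s, s' => ∃ t : Chain m j p, t.HasWeight k ∧
      ∀ g ν β, s.val g ν β - s'.val g ν β = t.dval g ν β

theorem Chain.regular_translate {m j p : ℕ} (x : SLm m) (s : Chain m j p) :
    ∃ P : SLm m × Nn m × (Fin (p + 1) → Bo m) → Wedge j (Tot m), Reg P ∧
      ∀ g ν β, s.val (x⁻¹ * g) ν β = wmap j (proj ν) (P (g, ν, β)) := by
  obtain ⟨P, hP, h⟩ := s.regular
  have hm : Mor fun g : SLm m => x⁻¹ * g := fun q => by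
    have h1 : RegF fun g : SLm m => ∑ k, mat x⁻¹ q.1 k * mat g k q.2 :=
      RegF.sum Finset.univ fun k _ => (RegF.const _).mul (RegF.co (X := SLm m) (k, q.2))
    obtain ⟨Q, hQ⟩ := h1
    refine ⟨Q, fun g => ?_⟩
    rw [← hQ]
    change mat (x⁻¹ * g) q.1 q.2 = _
    rw [mat_mul, Matrix.mul_apply]
  have hm2 : Mor fun y : SLm m × Nn m × (Fin (p + 1) → Bo m) => (x⁻¹ * y.1, y.2) :=
    (hm.comp Mor.fst).pair Mor.snd
  exact ⟨fun y => P (x⁻¹ * y.1, y.2), hP.comp hm2, fun g ν β => h _ _ _⟩

/-- The action of `x ∈ SL_m` on cochains induced by the left translation `(g, ν) ↦ (x g, ν)`: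
`(x s) (g, ν, β) = s (x⁻¹ g, ν, β)`. -/
def Chain.translate {m j p : ℕ} (x : SLm m) (s : Chain m j p) : Chain m j p where
  val g ν β := s.val (x⁻¹ * g) ν β
  regular := s.regular_translate x
  equivariant b g ν β := by
    rw [← mul_assoc]
    exact s.equivariant b _ ν β

/-- `SL_m` acts trivially on `H^i (Ñ, ⋀^j T Ñ)^(-i-j)`. -/
def ActsTrivially (m i j : ℕ) : Prop :=
  ∀ s : Chain m j i, s.HasWeight (-((i : ℤ) + j)) → s.Closed → ∀ x : SLm m,
    SameClass (-((i : ℤ) + j)) (s.translate x) s

end PV
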