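import Pool.Agent.Lib.MP_3b3418_ag.PV.Reg

/-!
# Rational modules of the Borel subgroup and their cochains
-/

set_option autoImplicit false

namespace PV

open MP3s

theorem mat_mul {m : ℕ} (a b : SLm m) : mat (a * b) = mat a * mat b :=
  Matrix.SpecialLinearGroup.coe_mul a b

theorem mat_one {m : ℕ} : mat (1 : SLm m) = 1 := Matrix.SpecialLinearGroup.coe_one

/-- The Borel subgroup of `SL_m`: the upper triangular matrices. -/
def Bor (m : ℕ) : Subgroup (SLm m) where
  carrier := {b | Upper (mat b)}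
  mul_mem' {a b} ha hb := by
    change Upper (mat (a * b))
    rw [mat_mul]
    exact upper_mul ha hb
  one_mem' := by
    change Upper (mat (1 : SLm m))
    rw [mat_one]
    intro i j hij
    exact Matrix.one_apply_ne (ne_of_gt hij)
  inv_mem' {a} ha := upper_inv ha

/-- The type of the upper triangular matrices in `SL_m`. -/
abbrev Bo (m : ℕ) : Type := Bor m

/-- The matrix of an element of `B`. -/
def mB {m : ℕ} (b : Bo m) : Gl m := mat b.1

/-- The diagonal torus. -/
def IsT {m : ℕ} (t : Bo m) : Prop := ∀ i j : Fin m, i ≠ j → mB t i j = 0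

/-- The upper triangular unipotent matrices. -/
def IsN {m : ℕ} (n : Bo m) : Prop := ∀ i : Fin m, mB n i i = 1

/-- The character `b ↦ ∏ b_ii ^ χ_i` of `B`. -/
noncomputable def chr {m : ℕ} (χ : Fin m → ℤ) (b : Bo m) : ℂ := ∏ i, mB b i i ^ χ i

theorem mB_mul {m : ℕ} (a b : Bo m) : mB (a * b) = mB a * mB b := mat_mul a.1 b.1

theorem mB_diag_mul {m : ℕ} (a b : Bo m) (i : Fin m) :
    mB (a * b) i i = mB a i i * mB b i i := by
  rw [mB_mul, Matrix.mul_apply]
  refine Finset.sum_eq_single i (fun k _ hk => ?_) fun h => absurd (Finset.mem_univ i) h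
  rcases lt_or_gt_of_ne hk with h | h
  · have h1 : mB a i k = 0 := a.2 i k h
    rw [h1, zero_mul]
  · have h1 : mB b k i = 0 := b.2 k i h
    rw [h1, mul_zero]

theorem mB_diag_ne {m : ℕ} (b : Bo m) (i : Fin m) : mB b i i ≠ 0 := by
  intro h
  have h1 : mB (b * b⁻¹) i i = 1 := by
    rw [mul_inv_cancel]
    exact Matrix.one_apply_eq i
  rw [mB_diag_mul, h, zero_mul] at h1
  exact zero_ne_one h1

theorem chr_mul {m : ℕ} (χ : Fin m → ℤ) (a b : Bo m) : chr χ (a * b) = chr χ a * chr χ b := by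
  unfold chr
  rw [← Finset.prod_mul_distrib]
  exact Finset.prod_congr rfl fun i _ => by rw [mB_diag_mul, mul_zpow]

theorem chr_one {m : ℕ} (χ : Fin m → ℤ) : chr χ (1 : Bo m) = 1 := by
  unfold chr
  refine Finset.prod_eq_one fun i _ => ?_
  have h : mB (1 : Bo m) i i = 1 := Matrix.one_apply_eq i
  rw [h, one_zpow]

/-- The representation of `B` twisted by a character. -/
noncomputable def tw {m : ℕ} {V : Type} [AddCommGroup V] [Module ℂ V]
    (ρ : Representation ℂ (Bo m) V) (χ : Fin m → ℤ) : Representation ℂ (Bo m) V where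
  toFun b := chr χ b • ρ b
  map_one' := by rw [chr_one, one_smul, map_one]
  map_mul' a b := by
    refine LinearMap.ext fun v => ?_
    rw [chr_mul, map_mul]
    change (chr χ a * chr χ b) • ρ a (ρ b v) = chr χ a • ρ a (chr χ b • ρ b v)
    rw [map_smul, mul_smul]

/-- Rational representation: the orbit maps are regular. -/
def Rat {H V : Type} [Group H] [Co H] [AddCommGroup V] [Module ℂ V]
    (ρ : Representation ℂ H V) : Prop := ∀ v : V, Reg fun h : H => ρ h v

section cochains

variable {m : ℕ} {V : Type} [AddCommGroup V] [Module ℂ V]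

/-- Cochains: regular `B`-equivariant maps from `B^(p+1)` to `V`. -/
def IsCoch (ρ : Representation ℂ (Bo m) V) (p : ℕ) (φ : (Fin (p + 1) → Bo m) → V) : Prop :=
  Reg φ ∧ ∀ (b : Bo m) (β : Fin (p + 1) → Bo m), φ (fun r => b * β r) = ρ b (φ β)

/-- The coboundary: alternating sum over the omission of a point. -/
def cob {X : Type} (p : ℕ) (φ : (Fin (p + 1) → X) → V) : (Fin (p + 2) → X) → V :=
  fun β => ∑ k : Fin (p + 2), (-1 : ℂ) ^ (k : ℕ) • φ fun r => β (k.succAbove r)

/-- `ψ` is the coboundary of a cochain (`0` in degree `0`). -/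
def IsCob (ρ : Representation ℂ (Bo m) V) : (p : ℕ) → ((Fin (p + 1) → Bo m) → V) → Prop
  | 0, ψ => ψ = 0
  | p + 1, ψ => ∃ φ, IsCoch ρ p φ ∧ cob p φ = ψ

/-- The endomorphism `f` kills the cohomology in degree `q`. -/
def Zq (ρ : Representation ℂ (Bo m) V) (f : V →ₗ[ℂ] V) (q : ℕ) : Prop :=
  ∀ φ, IsCoch ρ q φ → cob q φ = 0 → IsCob ρ q fun β => f (φ β)

/-- The cohomology vanishes in degree `q`. -/
def Van (ρ : Representation ℂ (Bo m) V) (q : ℕ) : Prop := Zq ρ LinearMap.id q

end cochains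

/-- Short exact sequence of representations of `B`. -/
structure Ses {m : ℕ} {V' V V'' : Type} [AddCommGroup V'] [Module ℂ V'] [AddCommGroup V]
    [Module ℂ V] [AddCommGroup V''] [Module ℂ V''] (ρ' : Representation ℂ (Bo m) V')
    (ρ : Representation ℂ (Bo m) V) (ρ'' : Representation ℂ (Bo m) V'') (ι : V' →ₗ[ℂ] V)
    (π : V →ₗ[ℂ] V'') : Prop where
  inj : Function.Injective ι
  surj : Function.Surjective π
  ex : ∀ v, π v = 0 ↔ ∃ v', ι v' = v
  eι : ∀ b v, ι (ρ' b v) = ρ b (ι v)
  eπ : ∀ b v, π (ρ b v) = ρ'' b (π v)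

section coind

variable {m : ℕ} (V : Type) [AddCommGroup V] [Module ℂ V]

/-- Regular functions `f : B → V` with `f (b n) = f b` for `n ∈ S` and `f (b t) = χ(t) f b` for `t`
in the torus. -/
noncomputable def Hs (S : Set (Bo m)) (χ : Fin m → ℤ) : Submodule ℂ (Bo m → V) where
  carrier := {f | Reg f ∧ (∀ b, ∀ n ∈ S, f (b * n) = f b) ∧
    ∀ b t, IsT t → f (b * t) = chr χ t • f b}
  add_mem' {f g} hf hg := ⟨hf.1.add hg.1, fun b n hn => by
      rw [Pi.add_apply, Pi.add_apply, hf.2.1 b n hn, hg.2.1 b n hn], fun b t ht => by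
      rw [Pi.add_apply, Pi.add_apply, hf.2.2 b t ht, hg.2.2 b t ht, smul_add]⟩
  zero_mem' := ⟨Reg.zero, fun _ _ _ => rfl, fun _ _ _ => by
      rw [Pi.zero_apply, Pi.zero_apply, smul_zero]⟩
  smul_mem' c f hf := ⟨hf.1.cSmul c, fun b n hn => by
      rw [Pi.smul_apply, Pi.smul_apply, hf.2.1 b n hn], fun b t ht => by
      rw [Pi.smul_apply, Pi.smul_apply, hf.2.2 b t ht, smul_comm]⟩

end coind

/-- `θ` is the representation of `B` on `Hs V S χ` by `(b f)(x) = b (f (b⁻¹ x))`. -/
def IsH {m : ℕ} {V : Type} [AddCommGroup V] [Module ℂ V] (ρ : Representation ℂ (Bo m) V)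
    (S : Set (Bo m)) (χ : Fin m → ℤ) (θ : Representation ℂ (Bo m) (Hs V S χ)) : Prop :=
  ∀ (b : Bo m) (f : Hs V S χ) (x : Bo m), (θ b f).1 x = ρ b (f.1 (b⁻¹ * x))

/-- `u` is the one parameter group `s ↦ 1 + s E_ij`. -/
def IsU {m : ℕ} (i j : Fin m) (u : ℂ → Bo m) : Prop :=
  ∀ s k l, mB (u s) k l = (if k = l then 1 else 0) + if k = i ∧ l = j then s else 0

/-- The root `ε_i - ε_j`. -/
def root {m : ℕ} (i j : Fin m) : Fin m → ℤ := fun k =>
  (if k = i then 1 else 0) - if k = j then 1 else 0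

/-- `x` is the matrix with the block `g` in the rows and columns `i`, `j`, else the unit matrix. -/
def Blk {m : ℕ} (i j : Fin m) (g : SLm 2) (x : SLm m) : Prop :=
  ∀ k l, mat x k l = if k = i then (if l = i then mat g 0 0 else if l = j then mat g 0 1 else 0)
    else if k = j then (if l = i then mat g 1 0 else if l = j then mat g 1 1 else 0)
    else if k = l then 1 else 0

/-- `σ` is a rational representation of `SL_2` on the rational representation `ρ` of `B`, which agrees
with `ρ` on the upper triangular matrices, up to the character `g ↦ g_00 ^ c`. -/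
structure AlphaMod {m : ℕ} (i j : Fin m) (c : ℤ) {V : Type} [AddCommGroup V] [Module ℂ V]
    (ρ : Representation ℂ (Bo m) V) (σ : Representation ℂ (SLm 2) V) : Prop where
  rat : Rat ρ
  rat2 : Rat σ
  agree : ∀ (g : SLm 2) (b : Bo m), mat g 1 0 = 0 → Blk i j g b.1 → ρ b = mat g 0 0 ^ c • σ g

end PV
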