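import Pool.Agent.Lib.MP_3b3418_ag.PV.Coh

/-!
# Normal forms in the tangent spaces of `Ñ`
-/

set_option autoImplicit false

namespace PV

open MP3s

/-- The map on exterior powers as a linear map. -/
noncomputable def wL {V W : Type} [AddCommGroup V] [Module ℂ V] [AddCommGroup W] [Module ℂ W]
    (j : ℕ) (f : V →ₗ[ℂ] W) : Wedge j V →ₗ[ℂ] Wedge j W := exteriorPower.map j f

theorem wmap_eq {V W : Type} [AddCommGroup V] [Module ℂ V] [AddCommGroup W] [Module ℂ W]
    (j : ℕ) (f : V →ₗ[ℂ] W) (w : Wedge j V) : wmap j f w = wL j f w := rfl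

theorem wL_comp {V W Z : Type} [AddCommGroup V] [Module ℂ V] [AddCommGroup W] [Module ℂ W]
    [AddCommGroup Z] [Module ℂ Z] (j : ℕ) (f : V →ₗ[ℂ] W) (g : W →ₗ[ℂ] Z) (w : Wedge j V) :
    wL j g (wL j f w) = wL j (g ∘ₗ f) w := by
  change exteriorPower.map j g (exteriorPower.map j f w) = exteriorPower.map j (g ∘ₗ f) w
  rw [exteriorPower.map_comp]
  rfl

theorem wL_id {V : Type} [AddCommGroup V] [Module ℂ V] (j : ℕ) (w : Wedge j V) :
    wL j LinearMap.id w = w := by
  change exteriorPower.map j LinearMap.id w = w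
  rw [exteriorPower.map_id]
  rfl

/-- The strictly lower triangular part. -/
def low {m : ℕ} (y : Gl m) : Gl m := fun a b => if b < a then y a b else 0

/-- The upper triangular part (with the diagonal). -/
def upp {m : ℕ} (y : Gl m) : Gl m := fun a b => if b < a then 0 else y a b

theorem upp_upper {m : ℕ} (y : Gl m) : Upper (upp y) := fun _ _ hab => if_pos hab

theorem low_add_upp {m : ℕ} (y : Gl m) : low y + upp y = y := by
  funext a b
  change (if b < a then y a b else 0) + (if b < a then 0 else y a b) = y a b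
  split_ifs
  · rw [add_zero]
  · rw [zero_add]

theorem low_trace {m : ℕ} (y : Gl m) : (low y).trace = 0 := by
  refine Finset.sum_eq_zero fun a _ => ?_
  exact if_neg (lt_irrefl a)

theorem low_add {m : ℕ} (y z : Gl m) : low (y + z) = low y + low z := by
  funext a b
  change (if b < a then y a b + z a b else 0) =
    (if b < a then y a b else 0) + (if b < a then z a b else 0)
  split_ifs
  · rfl
  · rw [add_zero]

theorem upp_add {m : ℕ} (y z : Gl m) : upp (y + z) = upp y + upp z := by
  funext a b
  change (if b < a then 0 else y a b + z a b) =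
    (if b < a then 0 else y a b) + (if b < a then 0 else z a b)
  split_ifs
  · rw [add_zero]
  · rfl

theorem low_smul {m : ℕ} (c : ℂ) (y : Gl m) : low (c • y) = c • low y := by
  funext a b
  change (if b < a then c * y a b else 0) = c * (if b < a then y a b else 0)
  split_ifs
  · rfl
  · rw [mul_zero]

theorem upp_smul {m : ℕ} (c : ℂ) (y : Gl m) : upp (c • y) = c • upp y := by
  funext a b
  change (if b < a then 0 else c * y a b) = c * (if b < a then 0 else y a b)
  split_ifs
  · rw [mul_zero]
  · rfl

theorem strict_red {m : ℕ} (ν μ : Nn m) (y : Gl m) :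
    Strict (matN μ - (matN ν * upp y - upp y * matN ν)) := by
  intro a b hab
  have h1 : matN μ a b = 0 := μ.2 a b hab
  have h2 : (matN ν * upp y) a b = 0 := strict_mul_upper ν.2 (upp_upper y) a b hab
  have h3 : (upp y * matN ν) a b = 0 := upper_mul_strict ν.2 (upp_upper y) a b hab
  rw [Matrix.sub_apply, Matrix.sub_apply, h1, h2, h3, sub_zero, sub_zero]

/-- The normal form of a tangent vector at `ν`: `(y, μ) ↦ (y_-, μ - (ν y_+ - y_+ ν))`. -/
def red {m : ℕ} (ν : Nn m) : Tot m →ₗ[ℂ] Tot m where
  toFun p := (⟨low (matS p.1), low_trace _⟩,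
    ⟨matN p.2 - (matN ν * upp (matS p.1) - upp (matS p.1) * matN ν), strict_red ν p.2 _⟩)
  map_add' p q := by
    refine Prod.ext (Subtype.ext ?_) (Subtype.ext ?_)
    · change low (matS p.1 + matS q.1) = low (matS p.1) + low (matS q.1)
      exact low_add _ _
    · change (matN p.2 + matN q.2) - (matN ν * upp (matS p.1 + matS q.1) -
          upp (matS p.1 + matS q.1) * matN ν) =
        (matN p.2 - (matN ν * upp (matS p.1) - upp (matS p.1) * matN ν)) +
        (matN q.2 - (matN ν * upp (matS q.1) - upp (matS q.1) * matN ν))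
      rw [upp_add, mul_add, add_mul]
      abel
  map_smul' c p := by
    refine Prod.ext (Subtype.ext ?_) (Subtype.ext ?_)
    · change low (c • matS p.1) = c • low (matS p.1)
      exact low_smul _ _
    · change c • matN p.2 - (matN ν * upp (c • matS p.1) - upp (c • matS p.1) * matN ν) =
        c • (matN p.2 - (matN ν * upp (matS p.1) - upp (matS p.1) * matN ν))
      rw [upp_smul, mul_smul_comm, smul_mul_assoc, smul_sub, smul_sub]

theorem red_orb {m : ℕ} (ν : Nn m) : OrbT ν ≤ LinearMap.ker (red ν) := by
  intro p hp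
  have h1 : upp (matS p.1) = matS p.1 := by
    funext a b
    change (if b < a then 0 else matS p.1 a b) = matS p.1 a b
    split_ifs with h
    · exact (hp.1 a b h).symm
    · rfl
  refine LinearMap.mem_ker.2 (Prod.ext (Subtype.ext ?_) (Subtype.ext ?_))
  · change low (matS p.1) = 0
    funext a b
    change (if b < a then matS p.1 a b else 0) = 0
    split_ifs with h
    · exact hp.1 a b h
    · rfl
  · change matN p.2 - (matN ν * upp (matS p.1) - upp (matS p.1) * matN ν) = 0
    rw [h1, hp.2, sub_self]

/-- The normal form as a map on the tangent space. -/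
def nf {m : ℕ} (ν : Nn m) : Tan ν →ₗ[ℂ] Tot m := (OrbT ν).liftQ (red ν) (red_orb ν)

theorem nf_proj {m : ℕ} (ν : Nn m) (p : Tot m) : nf ν (proj ν p) = red ν p :=
  Submodule.liftQ_apply _ _ _

theorem red_sub_mem {m : ℕ} (ν : Nn m) (p : Tot m) : p - red ν p ∈ OrbT ν := by
  have h1 : matS p.1 - low (matS p.1) = upp (matS p.1) := by
    rw [sub_eq_iff_eq_add, add_comm]
    exact (low_add_upp _).symm
  refine ⟨?_, ?_⟩
  · change Upper (matS p.1 - low (matS p.1))
    rw [h1]
    exact upp_upper _
  · change matN p.2 - (matN p.2 - (matN ν * upp (matS p.1) - upp (matS p.1) * matN ν)) =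
      matN ν * (matS p.1 - low (matS p.1)) - (matS p.1 - low (matS p.1)) * matN ν
    rw [h1, sub_sub_cancel]

theorem proj_red {m : ℕ} (ν : Nn m) (p : Tot m) : proj ν (red ν p) = proj ν p := by
  symm
  rw [← sub_eq_zero, ← map_sub]
  exact (Submodule.Quotient.mk_eq_zero _).2 (red_sub_mem ν p)

theorem proj_nf {m : ℕ} (ν : Nn m) (v : Tan ν) : proj ν (nf ν v) = v := by
  obtain ⟨p, rfl⟩ := Submodule.mkQ_surjective (OrbT ν) v
  exact (congrArg (proj ν) (nf_proj ν p)).trans (proj_red ν p)

end PV
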