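import Pool.Agent.Lib.MP_3b3418_ag.Stm

/-!
# Regular functions with values in a vector space
-/

set_option autoImplicit false

namespace PV

open MP3s

/-- A set with coordinates (an affine variety embedded in an affine space). -/
class Co (X : Type) where
  /-- index set of the coordinates -/
  I : Type
  /-- the coordinates of a point -/
  co : X → I → ℂ

/-- A scalar function which is a polynomial in the coordinates. -/
def RegF {X : Type} [Co X] (f : X → ℂ) : Prop :=
  ∃ P : MvPolynomial (Co.I X) ℂ, ∀ x, f x = MvPolynomial.eval (Co.co x) P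

/-- A regular function with values in a vector space: a finite sum of regular scalar functions times
vectors. -/
def Reg {X V : Type} [Co X] [AddCommGroup V] [Module ℂ V] (f : X → V) : Prop :=
  ∃ (n : ℕ) (a : Fin n → X → ℂ) (v : Fin n → V), (∀ k, RegF (a k)) ∧
    ∀ x, f x = ∑ k, a k x • v k

/-- A morphism: all coordinates of the image are regular. -/
def Mor {X Y : Type} [Co X] [Co Y] (g : X → Y) : Prop := ∀ i, RegF fun x => Co.co (g x) i

instance coSL (m : ℕ) : Co (SLm m) := ⟨Fin m × Fin m, fun g q => mat g q.1 q.2⟩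

instance coSub {m : ℕ} (H : Subgroup (SLm m)) : Co H :=
  ⟨Fin m × Fin m, fun g q => mat g.1 q.1 q.2⟩

instance coN (m : ℕ) : Co (Nn m) := ⟨Fin m × Fin m, fun ν q => matN ν q.1 q.2⟩

instance coPi (X : Type) [Co X] (k : ℕ) : Co (Fin k → X) :=
  ⟨Fin k × Co.I X, fun x q => Co.co (x q.1) q.2⟩

instance coProd (X Y : Type) [Co X] [Co Y] : Co (X × Y) :=
  ⟨Co.I X ⊕ Co.I Y, fun x => Sum.elim (Co.co x.1) (Co.co x.2)⟩

instance coC : Co ℂ := ⟨Unit, fun z _ => z⟩

section scalar

variable {X Y Z : Type} [Co X] [Co Y] [Co Z]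

theorem RegF.co (i : Co.I X) : RegF fun x : X => Co.co x i :=
  ⟨MvPolynomial.X i, fun x => by rw [MvPolynomial.eval_X]⟩

theorem RegF.const (c : ℂ) : RegF fun _ : X => c :=
  ⟨MvPolynomial.C c, fun x => by rw [MvPolynomial.eval_C]⟩

theorem RegF.add {f g : X → ℂ} (hf : RegF f) (hg : RegF g) : RegF fun x => f x + g x := by
  obtain ⟨P, hP⟩ := hf
  obtain ⟨Q, hQ⟩ := hg
  exact ⟨P + Q, fun x => by change f x + g x = _; rw [map_add, hP, hQ]⟩

theorem RegF.mul {f g : X → ℂ} (hf : RegF f) (hg : RegF g) : RegF fun x => f x * g x := by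
  obtain ⟨P, hP⟩ := hf
  obtain ⟨Q, hQ⟩ := hg
  exact ⟨P * Q, fun x => by change f x * g x = _; rw [map_mul, hP, hQ]⟩

theorem RegF.neg {f : X → ℂ} (hf : RegF f) : RegF fun x => -f x := by
  obtain ⟨P, hP⟩ := hf
  exact ⟨-P, fun x => by change -f x = _; rw [map_neg, hP]⟩

theorem RegF.sub {f g : X → ℂ} (hf : RegF f) (hg : RegF g) : RegF fun x => f x - g x := by
  obtain ⟨P, hP⟩ := hf
  obtain ⟨Q, hQ⟩ := hg
  exact ⟨P - Q, fun x => by change f x - g x = _; rw [map_sub, hP, hQ]⟩

theorem RegF.pow {f : X → ℂ} (hf : RegF f) (n : ℕ) : RegF fun x => f x ^ n := by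
  obtain ⟨P, hP⟩ := hf
  exact ⟨P ^ n, fun x => by change f x ^ n = _; rw [map_pow, hP]⟩

theorem RegF.sum {ι : Type} (s : Finset ι) {f : ι → X → ℂ} (hf : ∀ i ∈ s, RegF (f i)) :
    RegF fun x => ∑ i ∈ s, f i x := by
  classical
  induction s using Finset.induction_on with
  | empty => simpa using RegF.const (X := X) 0
  | insert a s ha ih =>
    have h1 := (hf a (Finset.mem_insert_self a s)).add
      (ih fun i hi => hf i (Finset.mem_insert_of_mem hi))
    simpa only [Finset.sum_insert ha] using h1

theorem RegF.prod {ι : Type} (s : Finset ι) {f : ι → X → ℂ} (hf : ∀ i ∈ s, RegF (f i)) :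
    RegF fun x => ∏ i ∈ s, f i x := by
  classical
  induction s using Finset.induction_on with
  | empty => simpa using RegF.const (X := X) 1
  | insert a s ha ih =>
    have h1 := (hf a (Finset.mem_insert_self a s)).mul
      (ih fun i hi => hf i (Finset.mem_insert_of_mem hi))
    simpa only [Finset.prod_insert ha] using h1

theorem RegF.comp {f : Y → ℂ} (hf : RegF f) {g : X → Y} (hg : Mor g) : RegF fun x => f (g x) := by
  obtain ⟨P, hP⟩ := hf
  choose Q hQ using hg
  refine ⟨MvPolynomial.bind₁ Q P, fun x => ?_⟩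
  beta_reduce
  rw [hP]
  have h1 : (Co.co (g x) : Co.I Y → ℂ) = fun i => MvPolynomial.eval (Co.co x) (Q i) :=
    funext fun i => hQ i x
  rw [h1]
  change _ = MvPolynomial.eval₂Hom (RingHom.id ℂ) (Co.co x) (MvPolynomial.bind₁ Q P)
  rw [MvPolynomial.eval₂Hom_bind₁]
  rfl

theorem Mor.comp {f : Y → Z} (hf : Mor f) {g : X → Y} (hg : Mor g) : Mor fun x => f (g x) :=
  fun i => (hf i).comp hg

theorem Mor.id : Mor fun x : X => x := fun i => RegF.co i

theorem Mor.const (y : Y) : Mor fun _ : X => y := fun _ => RegF.const _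

theorem Mor.fst : Mor fun x : X × Y => x.1 :=
  fun i => ⟨MvPolynomial.X (Sum.inl i), fun x => by rw [MvPolynomial.eval_X]; rfl⟩

theorem Mor.snd : Mor fun x : X × Y => x.2 :=
  fun i => ⟨MvPolynomial.X (Sum.inr i), fun x => by rw [MvPolynomial.eval_X]; rfl⟩

theorem Mor.pair {f : X → Y} (hf : Mor f) {g : X → Z} (hg : Mor g) : Mor fun x => (f x, g x) := by
  intro i
  rcases i with i | i
  · exact hf i
  · exact hg i

theorem Mor.pi {k : ℕ} {f : X → Fin k → Y} (hf : ∀ r, Mor fun x => f x r) : Mor f :=
  fun q => hf q.1 q.2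

theorem Mor.proj {k : ℕ} (r : Fin k) : Mor fun x : Fin k → X => x r :=
  fun i => ⟨MvPolynomial.X (r, i), fun x => by rw [MvPolynomial.eval_X]; rfl⟩

end scalar

section vector

variable {X Y : Type} [Co X] [Co Y] {V W : Type} [AddCommGroup V] [Module ℂ V] [AddCommGroup W]
  [Module ℂ W]

theorem Reg.smulConst {a : X → ℂ} (ha : RegF a) (v : V) : Reg fun x => a x • v :=
  ⟨1, fun _ => a, fun _ => v, fun _ => ha, fun x => by simp⟩

theorem Reg.const (v : V) : Reg fun _ : X => v := by
  have h := Reg.smulConst (X := X) (RegF.const 1) v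
  simpa using h

theorem Reg.zero : Reg fun _ : X => (0 : V) := Reg.const 0

theorem Reg.add {f g : X → V} (hf : Reg f) (hg : Reg g) : Reg fun x => f x + g x := by
  obtain ⟨n, a, v, ha, h1⟩ := hf
  obtain ⟨k, b, w, hb, h2⟩ := hg
  refine ⟨n + k, Fin.append a b, Fin.append v w, fun r => ?_, fun x => ?_⟩
  · refine Fin.addCases (fun r => ?_) (fun r => ?_) r
    · rw [Fin.append_left]; exact ha r
    · rw [Fin.append_right]; exact hb r
  · beta_reduce
    rw [h1, h2, Fin.sum_univ_add]
    simp only [Fin.append_left, Fin.append_right]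

theorem Reg.sum {ι : Type} (s : Finset ι) {f : ι → X → V} (hf : ∀ i ∈ s, Reg (f i)) :
    Reg fun x => ∑ i ∈ s, f i x := by
  classical
  induction s using Finset.induction_on with
  | empty => simpa using Reg.zero (X := X) (V := V)
  | insert a s ha ih =>
    have h1 := (hf a (Finset.mem_insert_self a s)).add
      (ih fun i hi => hf i (Finset.mem_insert_of_mem hi))
    simpa only [Finset.sum_insert ha] using h1

theorem Reg.map {f : X → V} (hf : Reg f) (L : V →ₗ[ℂ] W) : Reg fun x => L (f x) := by
  obtain ⟨n, a, v, ha, h1⟩ := hf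
  exact ⟨n, a, fun k => L (v k), ha, fun x => by beta_reduce; rw [h1, map_sum]; simp only [map_smul]⟩

theorem Reg.smul {f : X → V} (hf : Reg f) {c : X → ℂ} (hc : RegF c) : Reg fun x => c x • f x := by
  obtain ⟨n, a, v, ha, h1⟩ := hf
  refine ⟨n, fun k x => c x * a k x, v, fun k => hc.mul (ha k), fun x => ?_⟩
  beta_reduce
  rw [h1, Finset.smul_sum]
  simp only [mul_smul]

theorem Reg.cSmul {f : X → V} (hf : Reg f) (c : ℂ) : Reg fun x => c • f x := hf.smul (RegF.const c)

theorem Reg.neg {f : X → V} (hf : Reg f) : Reg fun x => -f x := by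
  have h := hf.cSmul (-1)
  simpa using h

theorem Reg.sub {f g : X → V} (hf : Reg f) (hg : Reg g) : Reg fun x => f x - g x := by
  have h := hf.add hg.neg
  simpa only [sub_eq_add_neg] using h

theorem Reg.comp {f : Y → V} (hf : Reg f) {g : X → Y} (hg : Mor g) : Reg fun x => f (g x) := by
  obtain ⟨n, a, v, ha, h1⟩ := hf
  exact ⟨n, fun k x => a k (g x), v, fun k => (ha k).comp hg, fun x => h1 _⟩

theorem Reg.ofRegF {f : X → ℂ} (hf : RegF f) : Reg f := by
  have h := Reg.smulConst hf (1 : ℂ)
  simpa using h

theorem Reg.toRegF {f : X → ℂ} (hf : Reg f) : RegF f := by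
  obtain ⟨n, a, v, ha, h1⟩ := hf
  have h2 : RegF fun x => ∑ k, a k x * v k :=
    RegF.sum Finset.univ fun k _ => (ha k).mul (RegF.const (v k))
  obtain ⟨P, hP⟩ := h2
  exact ⟨P, fun x => by rw [← hP, h1]; rfl⟩

/-- A family of operators `θ y`, regular on each vector, applied to a regular function. -/
theorem Reg.act {θ : Y → V →ₗ[ℂ] W} (hθ : ∀ v, Reg fun y => θ y v) {g : X → Y} (hg : Mor g)
    {f : X → V} (hf : Reg f) : Reg fun x => θ (g x) (f x) := by
  obtain ⟨n, a, v, ha, h1⟩ := hf
  have h2 : Reg fun x => ∑ k : Fin n, a k x • θ (g x) (v k) :=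
    Reg.sum Finset.univ fun k _ => ((hθ (v k)).comp hg).smul (ha k)
  obtain ⟨l, b, w, hb, h3⟩ := h2
  refine ⟨l, b, w, hb, fun x => ?_⟩
  beta_reduce
  rw [← h3, h1, map_sum]
  simp only [map_smul]

/-- A regular function with values in a subspace is regular as a function into the subspace. -/
theorem Reg.codRestrict {f : X → V} (hf : Reg f) (U : Submodule ℂ V) (h : ∀ x, f x ∈ U) :
    Reg fun x => (⟨f x, h x⟩ : U) := by
  obtain ⟨q, hq⟩ := U.exists_isCompl
  have h1 := hf.map (U.projectionOnto q hq)
  have h2 : (fun x => (U.projectionOnto q hq) (f x)) =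
      fun x => (⟨f x, h x⟩ : U) := by
    funext x
    exact Submodule.projectionOnto_apply_left hq ⟨f x, h x⟩
  rw [h2] at h1
  exact h1

/-- Regular functions of two variables as functions of the first variable with values in the
functions of the second one. -/
theorem Reg.curry {f : X × Y → V} (hf : Reg f) : Reg fun x => (fun y => f (x, y) : Y → V) := by
  have key : ∀ (P : MvPolynomial (Co.I (X × Y)) ℂ) (v : V),
      Reg fun x : X => (fun y => MvPolynomial.eval (Co.co (x, y)) P • v : Y → V) := by
    intro P v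
    induction P using MvPolynomial.induction_on with
    | C c =>
      have h : Reg fun _ : X => (fun _ => c • v : Y → V) := Reg.const _
      simpa only [MvPolynomial.eval_C] using h
    | add p q hp hq =>
      have h := hp.add hq
      have h2 : (fun x : X => (fun y => MvPolynomial.eval (Co.co (x, y)) p • v : Y → V) +
          (fun y => MvPolynomial.eval (Co.co (x, y)) q • v : Y → V)) =
          fun x : X => (fun y => MvPolynomial.eval (Co.co (x, y)) (p + q) • v : Y → V) := by
        funext x y
        rw [Pi.add_apply, map_add, add_smul]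
      rw [h2] at h
      exact h
    | mul_X p i hp =>
      rcases i with i | i
      · have h := hp.smul (RegF.co (X := X) i)
        have h2 : (fun x : X => Co.co x i •
            (fun y => MvPolynomial.eval (Co.co (x, y)) p • v : Y → V)) =
            fun x : X => (fun y => MvPolynomial.eval (Co.co (x, y))
              (p * MvPolynomial.X (Sum.inl i)) • v : Y → V) := by
          funext x y
          rw [Pi.smul_apply, map_mul, MvPolynomial.eval_X, mul_comm, mul_smul]
          rfl
        rw [h2] at h
        exact h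
      · let L : (Y → V) →ₗ[ℂ] (Y → V) :=
          { toFun := fun g y => Co.co y i • g y
            map_add' := fun g g' => funext fun y => smul_add _ _ _
            map_smul' := fun c g => funext fun y => smul_comm _ _ _ }
        have h := hp.map L
        have h2 : (fun x : X => L
            (fun y => MvPolynomial.eval (Co.co (x, y)) p • v : Y → V)) =
            fun x : X => (fun y => MvPolynomial.eval (Co.co (x, y))
              (p * MvPolynomial.X (Sum.inr i)) • v : Y → V) := by
          funext x y
          rw [map_mul, MvPolynomial.eval_X, mul_comm, mul_smul]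
          rfl
        rw [h2] at h
        exact h
  obtain ⟨n, a, v, ha, h1⟩ := hf
  choose P hP using ha
  have h2 := Reg.sum (X := X) Finset.univ fun (k : Fin n) _ => key (P k) (v k)
  have h3 : (fun x : X => ∑ k : Fin n,
      (fun y => MvPolynomial.eval (Co.co (x, y)) (P k) • v k : Y → V)) =
      fun x => (fun y => f (x, y) : Y → V) := by
    funext x y
    rw [Finset.sum_apply, h1]
    exact Finset.sum_congr rfl fun k _ => by rw [hP]
  rw [h3] at h2
  exact h2

end vector

end PV
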