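import Pool.Agent.Lib.MP_3b3418_ag.PV.SpecJ

/-!
# Statements, part D: Demazure modules, the swap lemma, Bott vanishing
-/

set_option autoImplicit false

namespace PV

open MP3s

/-- Homogeneous polynomials of degree `k` in two variables with coefficients in `V`, as functions. -/
def Sk (V : Type) [AddCommGroup V] [Module ℂ V] (k : ℕ) : Submodule ℂ (ℂ × ℂ → V) where
  carrier := {f | ∃ v : Fin (k + 1) → V, ∀ z, f z = ∑ l, (z.1 ^ l.val * z.2 ^ (k - l.val)) • v l}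
  add_mem' := by
    rintro f g ⟨v, hv⟩ ⟨w, hw⟩
    refine ⟨v + w, fun z => ?_⟩
    rw [Pi.add_apply, hv, hw, ← Finset.sum_add_distrib]
    exact Finset.sum_congr rfl fun l _ => by rw [Pi.add_apply, smul_add]
  zero_mem' := ⟨0, fun z => by simp⟩
  smul_mem' := by
    rintro c f ⟨v, hv⟩
    refine ⟨c • v, fun z => ?_⟩
    rw [Pi.smul_apply, hv, Finset.smul_sum]
    exact Finset.sum_congr rfl fun l _ => by rw [Pi.smul_apply, smul_comm]

/-- `θ` is the representation of `B` on `Sk V k`, twisted by `χ`: `b` acts on the two variables by the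
block of `b` in the rows and columns `i`, `j = i + 1`. -/
def IsSkB {m : ℕ} {V : Type} [AddCommGroup V] [Module ℂ V] (i j : Fin m) (k : ℕ) (χ : Fin m → ℤ)
    (ρ : Representation ℂ (Bo m) V) (θ : Representation ℂ (Bo m) (Sk V k)) : Prop :=
  ∀ (b : Bo m) (f : Sk V k) (z : ℂ × ℂ), (θ b f).1 z = chr χ b •
    ρ b (f.1 (mB b⁻¹ i i * z.1 + mB b⁻¹ i j * z.2, mB b⁻¹ j j * z.2))

/-- `f` is applied to the coefficients. -/
def IsSkF {V : Type} [AddCommGroup V] [Module ℂ V] (f : V →ₗ[ℂ] V) (k : ℕ)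
    (F : Sk V k →ₗ[ℂ] Sk V k) : Prop := ∀ (x : Sk V k) (z : ℂ × ℂ), (F x).1 z = f (x.1 z)

/-- **Tw.** Twisting by a character. `chr μ b = g_00 ^ (μ i - μ j)` for the block matrix `b` of an upper
triangular `g` (`g_11 = g_00⁻¹`); `S_Mor` for rationality of the twist. -/
def S_Tw : Prop := ∀ (m : ℕ) (i j : Fin m), i ≠ j → ∀ (c : ℤ) (V : Type) [AddCommGroup V]
  [Module ℂ V] (ρ : Representation ℂ (Bo m) V) (σ : Representation ℂ (SLm 2) V)
  (μ : Fin m → ℤ),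
  (AlphaMod i j c ρ σ → AlphaMod i j (c + μ i - μ j) (tw ρ μ) σ) ∧
  (Rat ρ → Rat (tw ρ μ)) ∧ (∀ μ', tw (tw ρ μ) μ' = tw ρ (μ + μ')) ∧ tw ρ 0 = ρ

/-- **Sk.** `Sk V k` carries the action of `B` of `IsSkB` (block of a product = product of blocks,
because `j = i + 1`), the action `(g f)(z) = σ g (f (g⁻¹ z))` of `SL_2`, and they form an `AlphaMod`
with `c = χ i - χ j`. Regularity of the orbit maps: coefficients of `(θ b f)`: expand the powers
(or: `z ↦ ..` jointly regular in `(b, z)`, `Reg.curry`, `Reg.codRestrict`). Also: `f` commuting with `ρ`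
gives `F` commuting with `θ`. -/
def S_Sk : Prop := ∀ (m : ℕ) (i j : Fin m), j.val = i.val + 1 → ∀ (V : Type) [AddCommGroup V]
  [Module ℂ V] (ρ : Representation ℂ (Bo m) V) (σ : Representation ℂ (SLm 2) V),
  AlphaMod i j 0 ρ σ → ∀ (k : ℕ) (χ : Fin m → ℤ), ∃ (θ : Representation ℂ (Bo m) (Sk V k))
    (τ : Representation ℂ (SLm 2) (Sk V k)), IsSkB i j k χ ρ θ ∧ AlphaMod i j (χ i - χ j) θ τ ∧
    ∀ f : V →ₗ[ℂ] V, ∃ F : Sk V k →ₗ[ℂ] Sk V k, IsSkF f k F ∧ (Com ρ f → Com θ F)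

/-- **D1.** `0 → Sk V r → Sk V (r+1) → V → 0`, `ι x = z_2 x`, `π x = x(1, 0)` (the coefficient of
`z_1 ^ (r+1)`), twists `χ - ε_j`, `χ`, `χ - (r+1) ε_i`. -/
def S_D1 : Prop := ∀ (m : ℕ) (i j : Fin m), j.val = i.val + 1 → ∀ (V : Type) [AddCommGroup V]
  [Module ℂ V] (ρ : Representation ℂ (Bo m) V) (r : ℕ) (χ : Fin m → ℤ)
  (θ' : Representation ℂ (Bo m) (Sk V r)) (θ : Representation ℂ (Bo m) (Sk V (r + 1))),
  IsSkB i j r (χ - Pi.single j 1) ρ θ' → IsSkB i j (r + 1) χ ρ θ →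
  ∃ (ι : Sk V r →ₗ[ℂ] Sk V (r + 1)) (π : Sk V (r + 1) →ₗ[ℂ] V),
    Ses θ' θ (tw ρ (χ - Pi.single i ((r : ℤ) + 1))) ι π ∧
    ∀ f F' F, IsSkF f r F' → IsSkF f (r + 1) F → Cmp ι π F' F f

/-- **D2.** `0 → V → Sk V (r+1) → Sk V r → 0`, `ι v = z_2 ^ (r+1) v`, `π` = derivative by `z_1`:
`∑_l z_1 ^ l z_2 ^ (r+1-l) v_l ↦ ∑_(l ≥ 1) l z_1 ^ (l-1) z_2 ^ (r+1-l) v_l` (the coefficients of
`x ∈ Sk V k` are uniquely determined by `x`), twists `χ - (r+1) ε_j`, `χ`, `χ - ε_i`. Equivariance of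
`π`: chain rule for `z_1 ↦ a z_1 + b z_2`, or on coefficients (binomial theorem), or via functionals
`ℓ` and `HasDerivAt`. -/
def S_D2 : Prop := ∀ (m : ℕ) (i j : Fin m), j.val = i.val + 1 → ∀ (V : Type) [AddCommGroup V]
  [Module ℂ V] (ρ : Representation ℂ (Bo m) V) (r : ℕ) (χ : Fin m → ℤ)
  (θ : Representation ℂ (Bo m) (Sk V (r + 1))) (θ'' : Representation ℂ (Bo m) (Sk V r)),
  IsSkB i j (r + 1) χ ρ θ → IsSkB i j r (χ - Pi.single i 1) ρ θ'' →
  ∃ (ι : V →ₗ[ℂ] Sk V (r + 1)) (π : Sk V (r + 1) →ₗ[ℂ] Sk V r),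
    Ses (tw ρ (χ - Pi.single j ((r : ℤ) + 1))) θ θ'' ι π ∧
    ∀ f F F'', IsSkF f (r + 1) F → IsSkF f r F'' → Cmp ι π f F F''

/-- **D0.** `V ≅ Sk V 0` (constant functions). -/
def S_D0 : Prop := ∀ (m : ℕ) (i j : Fin m) (V : Type) [AddCommGroup V] [Module ℂ V]
  (ρ : Representation ℂ (Bo m) V) (χ : Fin m → ℤ) (θ : Representation ℂ (Bo m) (Sk V 0)),
  IsSkB i j 0 χ ρ θ → ∃ e : V ≃ₗ[ℂ] Sk V 0, (∀ b v, e (tw ρ χ b v) = θ b (e v)) ∧
    ∀ f F, IsSkF f 0 F → ∀ v, F (e v) = e (f v)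

/-- **Sw** (the swap lemma). `μ_j - μ_i = r ≥ 0`. Put `χ = μ + (r+1) ε_i`, `χ' = χ - ε_j`. `S_D1`:
`0 → (Sk V r, χ') → (Sk V (r+1), χ) → tw ρ μ → 0`; the middle term is an `AlphaMod` with
`c = χ i - χ j = 1` (`S_Sk`), so without cohomology (`S_L`). If `r ≥ 1`, `S_D2` (for `r - 1`):
`0 → tw ρ (χ' - r ε_j) → (Sk V r, χ') → (Sk V (r-1), χ' - ε_i) → 0`; the third term has
`c = χ' i - 1 - χ' j = 1`, no cohomology; `χ' - r ε_j = μ + (r+1) root i j`. If `r = 0`: `S_D0`.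
`(→)`: `S_LA` for the first sequence gives `Zq (Sk V r, χ') (q+1)`, then `S_LC` for the second one
(`Van` of its third term in degree `q`). `(←)`: `S_LD` for the second sequence, `S_LB` for the first
one. Last claim: `Van (Sk V r, χ') 0` by `S_LC` with `q = 0` and `f = id` (the condition on `k` is
void), the same for the second sequence. -/
def S_Sw : Prop := ∀ (m : ℕ) (i j : Fin m), j.val = i.val + 1 → ∀ (V : Type) [AddCommGroup V]
  [Module ℂ V] (ρ : Representation ℂ (Bo m) V) (σ : Representation ℂ (SLm 2) V),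
  AlphaMod i j 0 ρ σ → ∀ (μ : Fin m → ℤ) (r : ℕ), μ j - μ i = r →
  (∀ f, Com ρ f → ∀ q, Zq (tw ρ μ) f q ↔
    Zq (tw ρ (μ + ((r : ℤ) + 1) • root i j)) f (q + 1)) ∧
  Van (tw ρ (μ + ((r : ℤ) + 1) • root i j)) 0

/-- `δ = (m-1, m-2, .., 0)`. -/
def del (m : ℕ) : Fin m → ℤ := fun k => (m : ℤ) - 1 - k.val

/-- The number of pairs `k < l` with `η_k < η_l`. -/
def invn {m : ℕ} (η : Fin m → ℤ) : ℕ :=
  (Finset.univ.filter fun p : Fin m × Fin m => p.1 < p.2 ∧ η p.1 < η p.2).card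

/-- `η` is a permutation of `δ`. -/
def IsPm {m : ℕ} (η : Fin m → ℤ) : Prop := ∃ s : Equiv.Perm (Fin m), ∀ k, η k = del m (s k)

/-- **Iv.** Combinatorics of `invn`. (1) swapping two adjacent entries with `η_i > η_j`, `j = i + 1`,
raises `invn` by one; injectivity and `IsPm` are preserved. (2) `invn η > 0` implies an adjacent ascent.
(3) no adjacent ascent and `η` not injective: two adjacent entries are equal. (4) no adjacent descent
and no adjacent equality: `invn η = m(m-1)/2`. (5) `IsPm η` without adjacent ascent: `η = δ`. -/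
def S_Iv : Prop := ∀ (m : ℕ) (η : Fin m → ℤ),
  (∀ i j : Fin m, j.val = i.val + 1 → η j < η i →
    invn (fun k => η (Equiv.swap i j k)) = invn η + 1) ∧
  (∀ i j : Fin m, (Function.Injective (fun k => η (Equiv.swap i j k)) ↔ Function.Injective η) ∧
    (IsPm (fun k => η (Equiv.swap i j k)) ↔ IsPm η)) ∧
  (0 < invn η → ∃ i j : Fin m, j.val = i.val + 1 ∧ η i < η j) ∧
  ((∀ i j : Fin m, j.val = i.val + 1 → η j ≤ η i) → ¬ Function.Injective η →
    ∃ i j : Fin m, j.val = i.val + 1 ∧ η i = η j) ∧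
  ((∀ i j : Fin m, j.val = i.val + 1 → η i < η j) → invn η = m * (m - 1) / 2) ∧
  (IsPm η → (∀ i j : Fin m, j.val = i.val + 1 → η j ≤ η i) → η = del m)

/-- **Bo** (Bott). `V` a rational representation of `G`, `f` commutes with `ρ = ρG|_B`. Write
`P(η, q, f) = Zq (tw ρ (δ - η)) f q`. `AlphaMod i j 0 ρ (ρG ∘ e)` for `j = i + 1` (`S_Emb`).
(0) `η_i = η_j`, `j = i+1`: `(δ - η)_i - (δ - η)_j = 1`, so `P(η, q, id)` for all `q` (`S_Tw`, `S_L`).
(S) `η_i > η_j`, `j = i+1`: `S_Sw` with `μ = δ - η`, `r = μ_j - μ_i = η_i - η_j - 1`: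
`μ + (r+1) root i j = δ - η∘swap`; so `P(η, q, f) ↔ P(η∘swap, q+1, f)` and `P(η∘swap, 0, id)`.
(a) `η` not injective: `P(η, q, id)` for all `q`, induction on `invn η`: an adjacent equality: (0); an
adjacent ascent `(i, j)`: (S) for `η∘swap` (`q = 0`: done, `q ≥ 1`: `P(η∘swap, q-1, id)`, smaller
`invn`); neither: `S_Iv` (3).
(b) `η` injective, `q < invn η`: induction on `q`: there is an adjacent ascent, (S) as in (a).
(c) `η` injective, `q > invn η`: induction on `m(m-1)/2 + 1 - q`: `q > m(m-1)/2`: `S_Cd`. Else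
`invn η < m(m-1)/2`, so (`S_Iv` (4), injective) there is an adjacent descent, `P(η, q, id)` follows from
`P(η∘swap, q+1, id)`, `invn (η∘swap) = invn η + 1 < q + 1`.
(d) `η` injective, `q = invn η`: by assumption `IsPm η` and `f` kills the invariants. Induction on
`invn η`: `0`: `η = δ` (`S_Iv` (5), no adjacent ascent), `tw ρ 0 = ρ`, `S_Inv`. Else an adjacent
ascent, (S). In the cases (a), (b), (c): `P(η, q, id)` implies `P(η, q, f)` (`S_VZ`). -/
def S_Bo : Prop := ∀ (m : ℕ) (V : Type) [AddCommGroup V] [Module ℂ V]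
  (ρG : Representation ℂ (SLm m) V) (ρ : Representation ℂ (Bo m) V), Rat ρG →
  (∀ b : Bo m, ρ b = ρG b.1) → ∀ f, Com ρ f → ∀ (η : Fin m → ℤ) (q : ℕ),
  (Function.Injective η → invn η = q → IsPm η ∧ ∀ v, (∀ b, ρ b v = v) → f v = 0) →
  Zq (tw ρ (del m - η)) f q

/-- Regular maps from `G = SL_m` to `M`. -/
def RG (m : ℕ) (M : Type) [AddCommGroup M] [Module ℂ M] : Submodule ℂ (SLm m → M) where
  carrier := {F | Reg F}
  add_mem' hf hg := Reg.add hf hg
  zero_mem' := Reg.zero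
  smul_mem' c _ hf := Reg.cSmul hf c

/-- `θ` is the representation `(b F)(g) = ρM b (F (g b))` of `B`. -/
def IsR {m : ℕ} {M : Type} [AddCommGroup M] [Module ℂ M] (ρM : Representation ℂ (Bo m) M)
    (θ : Representation ℂ (Bo m) (RG m M)) : Prop :=
  ∀ (b : Bo m) (F : RG m M) (g : SLm m), (θ b F).1 g = ρM b (F.1 (g * b.1))

/-- `τ` is the representation `(x F)(g) = F (x⁻¹ g)` of `G`. -/
def IsL {m : ℕ} {M : Type} [AddCommGroup M] [Module ℂ M]
    (τ : Representation ℂ (SLm m) (RG m M)) : Prop :=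
  ∀ (x : SLm m) (F : RG m M) (g : SLm m), (τ x F).1 g = F.1 (x⁻¹ * g)

/-- **RGa.** Existence and rationality of these representations (`Reg.comp`, `Reg.map`, `Reg.act`,
`Reg.curry`, `Reg.codRestrict`, `S_Mor`); they commute. For the trivial representation on `M = ℂ`
twisted by `μ`: `θ = tw (ρG|_B) μ`, where `(ρG y F)(g) = F (g y)`. -/
def S_RGa : Prop := ∀ (m : ℕ) (M : Type) [AddCommGroup M] [Module ℂ M]
  (ρM : Representation ℂ (Bo m) M), Rat ρM → (∃ θ, IsR ρM θ) ∧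
  (∃ τ : Representation ℂ (SLm m) (RG m M), IsL τ) ∧
  (∀ θ, IsR ρM θ → Rat θ ∧ ∀ τ, IsL τ → ∀ x, Com θ (τ x)) ∧
  ∃ ρG : Representation ℂ (SLm m) (RG m M), Rat ρG ∧
    ∀ (y : SLm m) (F : RG m M) (g : SLm m), (ρG y F).1 g = F.1 (g * y)

/-- **Con.** A regular function `F` on `SL_m` with `F (g b) = F g` for `b ∈ B` is constant. The set
`H = {y | ∀ g, F (g y) = F g}` is a subgroup. Consider the rational representation
`(ρG y F)(g) = F (g y)` (`S_RGa` for `M = ℂ`) and the blocks `(i, i+1)`: `S_SLb` shows that `H`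
contains the blocks of `SL_2` (`S_Emb`). So `H` contains `B` and the transvections `1 + s E_(i+1, i)`,
hence by commutators all `1 + s E_lk` (`l > k`): `[1 + s E_(l, l-1), 1 + E_(l-1, k)] = 1 + s E_lk`; and
`SL_m` is generated by transvections and the diagonal matrices (`Matrix.Pivot`:
`exists_list_transvec_mul_diagonal_mul_list_transvec`). -/
def S_Con : Prop := ∀ (m : ℕ) (F : SLm m → ℂ), Reg F → (∀ (g : SLm m) (b : Bo m),
  F (g * b.1) = F g) → ∀ g h : SLm m, F g = F h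

/-- `M` is spanned by vectors of weights in `Λ` for the torus. -/
def WS {m : ℕ} {M : Type} [AddCommGroup M] [Module ℂ M] (Λ : Set (Fin m → ℤ))
    (ρM : Representation ℂ (Bo m) M) : Prop :=
  Submodule.span ℂ {v : M | ∃ μ ∈ Λ, ∀ t, IsT t → ρM t v = chr μ t • v} = ⊤

/-- **Eig.** An eigenvector of `B`. Take a finite set of nonzero weight vectors `v_a` with weights
`μ_a ∈ Λ` spanning `M` and in it `v` with maximal `h(μ)`, `h(μ) = ∑_k (m - 1 - 2k) μ_k`. Let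
`t(s)` (`s ≠ 0`) be the diagonal matrix with entries `s ^ (m-1-2k)` (determinant one), then
`chr μ (t(s)) = s ^ h(μ)`, and for unipotent `n ∈ B`: `t(s) n t(s)⁻¹` has the entries
`s ^ (2(l-k)) n_kl`. Let `ℓ` be a functional. `p(s) = ℓ (ρ (n_s) v)`, `n_s` = matrix with entries
`s ^ (2(l-k)) n_kl` (in `B`, also for `s = 0`: `n_0 = 1`), is a polynomial in `s`. For `s ≠ 0`:
`ρ (n_s) v = s ^ (-h(μ)) ρ (t(s)) ρ(n) v = ∑_a c_a s ^ (h(μ_a) - h(μ)) v_a` if `ρ(n) v = ∑ c_a v_a`: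
only exponents `≤ 0`. So `p` is constant, `ℓ (ρ(n) v) = p(1) = p(0) = ℓ v`. Every `b ∈ B` is `n t`. -/
def S_Eig : Prop := ∀ (m : ℕ) (M : Type) [AddCommGroup M] [Module ℂ M] [Module.Finite ℂ M]
  (ρM : Representation ℂ (Bo m) M) (Λ : Set (Fin m → ℤ)), Rat ρM → WS Λ ρM → Nontrivial M →
  ∃ v : M, v ≠ 0 ∧ ∃ μ ∈ Λ, ∀ b, ρM b v = chr μ b • v

/-- `G` acts trivially on the cohomology in degree `q` of `RG m M`. -/
def Trv {m : ℕ} {M : Type} [AddCommGroup M] [Module ℂ M] (ρM : Representation ℂ (Bo m) M)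
    (q : ℕ) : Prop := ∀ θ, IsR ρM θ → ∀ τ, IsL τ → ∀ x, Zq θ (τ x - LinearMap.id) q

/-- **Fil.** Induction on `dim M`. `M = 0`: clear (`RG m M` is zero). Else `v` of `S_Eig` with weight
`μ ∈ Λ`; `M' = ℂ` with `tw (trivial) μ`, `ι c = c v`; `M'' = M / ℂ v` (a representation, rational, spanned
by weight vectors with weights in `Λ`, smaller dimension). `0 → RG M' → RG M → RG M'' → 0` (maps:
composition) is exact: surjectivity by a linear section of `M → M''`; kernel: values in `ℂ v`. Then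
`S_Tri`. The hypothesis is for the representation `tw (trivial) μ` on `ℂ`. -/
def S_Fil : Prop := ∀ (m : ℕ) (Λ : Set (Fin m → ℤ)) (q : ℕ),
  (∀ μ ∈ Λ, Trv (tw (Representation.trivial ℂ (Bo m) ℂ) μ) q) →
  ∀ (M : Type) [AddCommGroup M] [Module ℂ M] [Module.Finite ℂ M]
    (ρM : Representation ℂ (Bo m) M), Rat ρM → WS Λ ρM → Trv ρM q

/-- **OneD.** `M = ℂ` with the character `μ = δ - η`: `S_Bo` for `V = RG m ℂ` (`S_RGa`) and
`f = τ x - id`: `θ = tw (ρG|_B) μ`; `f` commutes; invariants of `ρG|_B` are constant functions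
(`S_Con`), killed by `f`. -/
def S_OneD : Prop := ∀ (m : ℕ) (μ : Fin m → ℤ) (q : ℕ),
  (Function.Injective (del m - μ) → invn (del m - μ) = q → IsPm (del m - μ)) →
  Trv (tw (Representation.trivial ℂ (Bo m) ℂ) μ) q

end PV
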