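import Pool.Agent.Lib.MP_3b3418_ag.PV.Defs

/-!
# Statements, part H: cohomology of rational modules of the Borel subgroup

`IsCoch ρ p`: regular `B`-equivariant maps `φ : B^(p+1) → V`; `cob`: the alternating sum. The complex
is the complex of the invariants of the standard resolution, so it computes the rational cohomology
`H^p (B, V)`.
-/

set_option autoImplicit false

namespace PV

open MP3s

/-- **Mor.** Multiplication and inversion are morphisms, characters are regular. Entries of a product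
are sums of products; entries of the inverse are entries of the adjugate matrix
(`Matrix.SpecialLinearGroup.coe_inv`, `Matrix.adjugate_apply`, `Matrix.det_apply`);
`b_ii ^ (-n) = ((b⁻¹)_ii) ^ n` because `(b b⁻¹)_ii = b_ii (b⁻¹)_ii` (`mB_diag_mul`). -/
def S_Mor : Prop := ∀ m : ℕ,
  Mor (fun p : SLm m × SLm m => p.1 * p.2) ∧ Mor (fun g : SLm m => g⁻¹) ∧
  Mor (fun p : Bo m × Bo m => p.1 * p.2) ∧ Mor (fun g : Bo m => g⁻¹) ∧
  Mor (fun b : Bo m => (b.1 : SLm m)) ∧ ∀ χ : Fin m → ℤ, RegF fun b : Bo m => chr χ b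

/-- **CC.** `d ∘ d = 0` (usual cancellation: `Fin.succAbove` simplicial identity). -/
def S_CC : Prop := ∀ (X V : Type) [AddCommGroup V] [Module ℂ V] (p : ℕ)
  (φ : (Fin (p + 1) → X) → V), cob (p + 1) (cob p φ) = 0

/-- **Lift.** Choose a regular `Ψ : B^(p+1) → V` with `π Ψ = φ''` (lift the vectors in a
representation `φ'' = ∑ a_k v''_k`), put `φ β = ρ (β 0) (Ψ (fun r => (β 0)⁻¹ * β r))`. Regular by
`Reg.act` (`Rat ρ`) and `S_Mor`; equivariant: clear; `π (φ β) = ρ'' (β 0) (φ'' ((β 0)⁻¹ β)) = φ'' β`. -/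
def S_Lift : Prop := ∀ (m : ℕ) (V V'' : Type) [AddCommGroup V] [Module ℂ V] [AddCommGroup V'']
  [Module ℂ V''] (ρ : Representation ℂ (Bo m) V) (ρ'' : Representation ℂ (Bo m) V'')
  (π : V →ₗ[ℂ] V''), Rat ρ → Function.Surjective π → (∀ b v, π (ρ b v) = ρ'' b (π v)) →
  ∀ (p : ℕ) (φ'' : (Fin (p + 1) → Bo m) → V''), IsCoch ρ'' p φ'' →
  ∃ φ : (Fin (p + 1) → Bo m) → V, IsCoch ρ p φ ∧ ∀ β, π (φ β) = φ'' β

/-- **Ker.** `φ` takes values in the range of `ι`: `Reg.codRestrict` and `Reg.map` with the inverse of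
`LinearEquiv.ofInjective`; equivariance by injectivity. -/
def S_Ker : Prop := ∀ (m : ℕ) (V' V : Type) [AddCommGroup V'] [Module ℂ V'] [AddCommGroup V]
  [Module ℂ V] (ρ' : Representation ℂ (Bo m) V') (ρ : Representation ℂ (Bo m) V)
  (ι : V' →ₗ[ℂ] V), Function.Injective ι → (∀ b v, ι (ρ' b v) = ρ b (ι v)) →
  ∀ (p : ℕ) (φ : (Fin (p + 1) → Bo m) → V), IsCoch ρ p φ → (∀ β, ∃ v, ι v = φ β) →
  ∃ φ' : (Fin (p + 1) → Bo m) → V', IsCoch ρ' p φ' ∧ ∀ β, ι (φ' β) = φ β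

/-- `f` commutes with the representation. -/
def Com {m : ℕ} {V : Type} [AddCommGroup V] [Module ℂ V] (ρ : Representation ℂ (Bo m) V)
    (f : V →ₗ[ℂ] V) : Prop := ∀ b v, f (ρ b v) = ρ b (f v)

/-- **VZ.** Vanishing implies that every commuting `f` kills the cohomology (apply `f` to the cochain
whose coboundary is `φ`); `Zq` is invariant under isomorphism; cochains are stable under sums,
multiples, commuting maps; `cob` of a cochain is a cochain. -/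
def S_VZ : Prop := ∀ (m : ℕ) (V V₁ : Type) [AddCommGroup V] [Module ℂ V] [AddCommGroup V₁]
  [Module ℂ V₁] (ρ : Representation ℂ (Bo m) V) (ρ₁ : Representation ℂ (Bo m) V₁),
  (∀ (f : V →ₗ[ℂ] V) (q : ℕ), Com ρ f → Van ρ q → Zq ρ f q) ∧
  (∀ (e : V ≃ₗ[ℂ] V₁) (f : V →ₗ[ℂ] V) (f₁ : V₁ →ₗ[ℂ] V₁) (q : ℕ),
    (∀ b v, e (ρ b v) = ρ₁ b (e v)) → (∀ v, f₁ (e v) = e (f v)) → Zq ρ f q → Zq ρ₁ f₁ q) ∧
  (∀ (p : ℕ) (φ ψ : (Fin (p + 1) → Bo m) → V), IsCoch ρ p φ → IsCoch ρ p ψ →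
    IsCoch ρ p (fun β => φ β + ψ β) ∧ IsCoch ρ p (fun β => φ β - ψ β)) ∧
  (∀ (p : ℕ) (φ : (Fin (p + 1) → Bo m) → V) (L : V →ₗ[ℂ] V₁), IsCoch ρ p φ →
    (∀ b v, L (ρ b v) = ρ₁ b (L v)) → IsCoch ρ₁ p (fun β => L (φ β))) ∧
  (∀ (p : ℕ) (φ : (Fin (p + 1) → Bo m) → V), IsCoch ρ p φ → IsCoch ρ (p + 1) (cob p φ))

/-- Endomorphisms of the three terms of a short exact sequence. -/
structure Cmp {V' V V'' : Type} [AddCommGroup V'] [Module ℂ V'] [AddCommGroup V] [Module ℂ V]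
    [AddCommGroup V''] [Module ℂ V''] (ι : V' →ₗ[ℂ] V) (π : V →ₗ[ℂ] V'') (f' : V' →ₗ[ℂ] V')
    (f : V →ₗ[ℂ] V) (f'' : V'' →ₗ[ℂ] V'') : Prop where
  h1 : ∀ v, ι (f' v) = f (ι v)
  h2 : ∀ v, π (f v) = f'' (π v)

/-- **LA** (connecting map, upwards). `0 → V' → V → V'' → 0`. Let `c'` be a cocycle of `V'` in degree
`q+1`. `ι c' = d φ` (`Van ρ (q+1)`), `φ` a `q`-cochain of `V`; `π φ` is a cocycle of `V''`. `q = 0`:
`f'' π φ = 0`, so `f φ = ι χ'` (`S_Ker`) and `ι (f' c') = f (d φ) = d (ι χ')`, `f' c' = d χ'`. `q > 0`: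
`f'' π φ = d ψ''`, `ψ'' = π ψ` (`S_Lift`), `π (f φ - d ψ) = 0`, `f φ - d ψ = ι χ'`, again
`ι (f' c') = d (f φ) = d (f φ - d ψ) = ι (d χ')` by `S_CC`. -/
def S_LA : Prop := ∀ (m : ℕ) (V' V V'' : Type) [AddCommGroup V'] [Module ℂ V'] [AddCommGroup V]
  [Module ℂ V] [AddCommGroup V''] [Module ℂ V''] (ρ' : Representation ℂ (Bo m) V')
  (ρ : Representation ℂ (Bo m) V) (ρ'' : Representation ℂ (Bo m) V'') (ι : V' →ₗ[ℂ] V)
  (π : V →ₗ[ℂ] V'') (f' : V' →ₗ[ℂ] V') (f : V →ₗ[ℂ] V) (f'' : V'' →ₗ[ℂ] V'') (q : ℕ), Rat ρ →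
  Ses ρ' ρ ρ'' ι π → Cmp ι π f' f f'' → Com ρ f → Zq ρ'' f'' q → Van ρ (q + 1) →
  Zq ρ' f' (q + 1)

/-- **LB** (connecting map, downwards). Let `c''` be a cocycle of `V''` in degree `q`, `π φ = c''`
(`S_Lift`), `d φ = ι c'` (`π d φ = 0`, `S_Ker`), `c'` a cocycle, `f' c' = d χ'`, so
`d (f φ - ι χ') = 0`. `q = 0`: `Van ρ 0` gives `f φ = ι χ'`, so `f'' c'' = 0`. `q > 0`:
`f φ - ι χ' = d ψ`, `f'' c'' = d (π ψ)`. -/
def S_LB : Prop := ∀ (m : ℕ) (V' V V'' : Type) [AddCommGroup V'] [Module ℂ V'] [AddCommGroup V]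
  [Module ℂ V] [AddCommGroup V''] [Module ℂ V''] (ρ' : Representation ℂ (Bo m) V')
  (ρ : Representation ℂ (Bo m) V) (ρ'' : Representation ℂ (Bo m) V'') (ι : V' →ₗ[ℂ] V)
  (π : V →ₗ[ℂ] V'') (f' : V' →ₗ[ℂ] V') (f : V →ₗ[ℂ] V) (f'' : V'' →ₗ[ℂ] V'') (q : ℕ), Rat ρ →
  Ses ρ' ρ ρ'' ι π → Cmp ι π f' f f'' → Com ρ f → Zq ρ' f' (q + 1) → Van ρ q → Zq ρ'' f'' q

/-- **LC.** Let `c'` be a cocycle of `V'` in degree `q`; `f (ι c') = d χ` (`= 0` if `q = 0`: done by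
injectivity). `π χ` is a cocycle of `V''` in degree `q-1`. If `q = 1`: `π χ = 0` (`Van ρ'' 0`), so
`χ = ι χ'`, `f' c' = d χ'`. If `q > 1`: `π χ = d ψ''`, `ψ'' = π ψ`, `χ - d ψ = ι χ'`. -/
def S_LC : Prop := ∀ (m : ℕ) (V' V V'' : Type) [AddCommGroup V'] [Module ℂ V'] [AddCommGroup V]
  [Module ℂ V] [AddCommGroup V''] [Module ℂ V''] (ρ' : Representation ℂ (Bo m) V')
  (ρ : Representation ℂ (Bo m) V) (ρ'' : Representation ℂ (Bo m) V'') (ι : V' →ₗ[ℂ] V)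
  (π : V →ₗ[ℂ] V'') (f' : V' →ₗ[ℂ] V') (f : V →ₗ[ℂ] V) (f'' : V'' →ₗ[ℂ] V'') (q : ℕ), Rat ρ →
  Ses ρ' ρ ρ'' ι π → Cmp ι π f' f f'' → (∀ k, q = k + 1 → Van ρ'' k) → Zq ρ f q → Zq ρ' f' q

/-- **LD.** Let `c` be a cocycle of `V` in degree `q`; `π c` is a coboundary of `V''` (`= 0` if
`q = 0`): `π c = d π ψ`, `c - d ψ = ι c'`, `f' c' = d χ'` (`= 0` if `q = 0`), so
`f c = d (f ψ) + ι (f' c') = d (f ψ + ι χ')`. (With `f = id` everywhere: if `V'` and `V''` have no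
cohomology in degree `q`, then `V` has none.) -/
def S_LD : Prop := ∀ (m : ℕ) (V' V V'' : Type) [AddCommGroup V'] [Module ℂ V'] [AddCommGroup V]
  [Module ℂ V] [AddCommGroup V''] [Module ℂ V''] (ρ' : Representation ℂ (Bo m) V')
  (ρ : Representation ℂ (Bo m) V) (ρ'' : Representation ℂ (Bo m) V'') (ι : V' →ₗ[ℂ] V)
  (π : V →ₗ[ℂ] V'') (f' : V' →ₗ[ℂ] V') (f : V →ₗ[ℂ] V) (f'' : V'' →ₗ[ℂ] V'') (q : ℕ), Rat ρ →
  Ses ρ' ρ ρ'' ι π → Cmp ι π f' f f'' → Com ρ f → Zq ρ' f' q → Van ρ'' q → Zq ρ f q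

/-- **LF.** If every invariant of `V''` is the image of an invariant of `V` and `V` has no cohomology
in degree `1`, then `V'` has none in degree `1`: `ι c' = d φ`, `π φ` is a cocycle in degree `0`, hence
constant and equal to an invariant `w = π v` of `V''` (a `0`-cochain `φ` with `d φ = 0` satisfies
`φ(b) = φ(b')` for all `b, b'`), `v` invariant; `φ - v = ι χ'`, `c' = d χ'`. -/
def S_LF : Prop := ∀ (m : ℕ) (V' V V'' : Type) [AddCommGroup V'] [Module ℂ V'] [AddCommGroup V]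
  [Module ℂ V] [AddCommGroup V''] [Module ℂ V''] (ρ' : Representation ℂ (Bo m) V')
  (ρ : Representation ℂ (Bo m) V) (ρ'' : Representation ℂ (Bo m) V'') (ι : V' →ₗ[ℂ] V)
  (π : V →ₗ[ℂ] V''), Rat ρ → Ses ρ' ρ ρ'' ι π →
  (∀ w : V'', (∀ b, ρ'' b w = w) → ∃ v : V, (∀ b, ρ b v = v) ∧ π v = w) → Van ρ 1 → Van ρ' 1

/-- **Inv.** Degree `0`: `Zq ρ f 0` says that `f` kills the invariants. -/
def S_Inv : Prop := ∀ (m : ℕ) (V : Type) [AddCommGroup V] [Module ℂ V]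
  (ρ : Representation ℂ (Bo m) V) (f : V →ₗ[ℂ] V),
  Zq ρ f 0 ↔ ∀ v : V, (∀ b, ρ b v = v) → f v = 0

/-- **Perf.** `SL_m(ℂ)` is perfect. (`m ≤ 1`: trivial group. `m ≥ 2`: generated by transvections
`1 + s E_ij`; each one is a commutator `t u t⁻¹ u⁻¹` with `t` diagonal, entries `a` at `i`, `a⁻¹` at
`j`, `a² ≠ 1`: `t (1 + r E_ij) t⁻¹ (1 - r E_ij) = 1 + (a² - 1) r E_ij`.) -/
def S_Perf : Prop := ∀ m : ℕ, commutator (SLm m) = ⊤

/-- **Tri.** `G = SL_m` acts (`τ`) on the three modules and commutes with `B`. If `G` acts trivially on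
the cohomology of `V'` and `V''` in degree `q`, then also on the one of `V`. For a cocycle `c` of `V`:
`π ((τ x - 1) c)` is a coboundary, so `(τ x - 1) c = ι c'_x + (coboundary)` with a cocycle `c'_x` of
`V'`, and `(τ y - 1)(τ x - 1) c` is a coboundary for all `x, y`. So `x ↦ (τ x - 1) c` mod coboundaries
is a homomorphism to an abelian group: `(τ (x y) - 1) c = (τ x - 1) c + (τ y - 1) c + (τ x - 1)(τ y - 1) c`.
It kills the commutators: the set of `x` with `(τ x - 1) c` a coboundary is a subgroup containing all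
commutators, so everything (`S_Perf`). -/
def S_Tri : Prop := ∀ (m : ℕ) (V' V V'' : Type) [AddCommGroup V'] [Module ℂ V'] [AddCommGroup V]
  [Module ℂ V] [AddCommGroup V''] [Module ℂ V''] (ρ' : Representation ℂ (Bo m) V')
  (ρ : Representation ℂ (Bo m) V) (ρ'' : Representation ℂ (Bo m) V'') (ι : V' →ₗ[ℂ] V)
  (π : V →ₗ[ℂ] V'') (τ' : Representation ℂ (SLm m) V') (τ : Representation ℂ (SLm m) V)
  (τ'' : Representation ℂ (SLm m) V'') (q : ℕ), Rat ρ → Ses ρ' ρ ρ'' ι π →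
  (∀ x, Cmp ι π (τ' x) (τ x) (τ'' x)) → (∀ x, Com ρ (τ x)) →
  (∀ x, Zq ρ' (τ' x - LinearMap.id) q) → (∀ x, Zq ρ'' (τ'' x - LinearMap.id) q) →
  ∀ x, Zq ρ (τ x - LinearMap.id) q

end PV
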