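import Pool.Agent.Lib.MP_3b3418_ag.PV.SpecH

/-!
# Statements, part J: coinduced modules, the bound for the cohomological dimension, the vanishing lemma
-/

set_option autoImplicit false

namespace PV

open MP3s

/-- **HRep.** `Hs V S χ` carries the representation `(b f)(x) = ρ b (f (b⁻¹ x))`, it is rational. The
conditions on `f` are on right translations, so they are kept; regularity of `x ↦ ρ b (f (b⁻¹ x))`:
`Reg.comp`, `Reg.map`. Rational: `(b, x) ↦ ρ b (f (b⁻¹ x))` is regular on `Bo m × Bo m` (`Reg.act`,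
`S_Mor`), then `Reg.curry` and `Reg.codRestrict`. -/
def S_HRep : Prop := ∀ (m : ℕ) (V : Type) [AddCommGroup V] [Module ℂ V]
  (ρ : Representation ℂ (Bo m) V), Rat ρ → ∀ (S : Set (Bo m)) (χ : Fin m → ℤ),
  (∃ θ, IsH ρ S χ θ) ∧ ∀ θ, IsH ρ S χ θ → Rat θ

/-- **Avg.** Averages over a finite torus. A function `F` on the diagonal torus of `SL_m` which is a
polynomial in the diagonal entries: for `N` larger than all exponents, with
`T_N = {t diagonal, t ^ N = 1}` (a finite group), the function `t ↦ ∑_(t' ∈ T_N) F (t t')` is constant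
(so equal to its value at `1`). Proof: `F = ∑_e t ^ e v_e` (a finite sum over exponent vectors
`e : Fin m → ℕ`, all `e_k < N`). `∑_(t' ∈ T_N) t' ^ e = 0` if `e` is not constant: if `e_k ≠ e_l` take
`t''` with entries `ζ` at `k`, `ζ⁻¹` at `l` (`ζ` a primitive `N`-th root of unity), then
`t'' ^ e = ζ ^ (e_k - e_l) ≠ 1` and the sum is multiplied by it. If `e` is constant, `t ^ e = 1` on the
whole torus (determinant one). Form of the statement: for every regular `F : Bo m × X → V` there is a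
finite set `A` of torus elements, nonempty, such that for every `x` and all `b` and torus elements `t`:
`∑_(a ∈ A) F (b t a, x) = ∑_(a ∈ A) F (b a, x)` (entries of `b t a` are `b_kl (t a)_l`: apply the above
to the coefficients). -/
def S_Avg : Prop := ∀ (m : ℕ) (X V : Type) [Co X] [AddCommGroup V] [Module ℂ V]
  (F : Bo m × X → V), Reg F → ∃ A : Finset (Bo m), A.Nonempty ∧ (∀ a ∈ A, IsT a) ∧
    ∀ (b t : Bo m) (x : X), IsT t →
      ∑ a ∈ A, F (b * t * a, x) = ∑ a ∈ A, F (b * a, x)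

/-- **Acy.** The modules `Hs V {1} χ` (coinduced from the torus) have no cohomology in positive
degrees. Let `c` be a cocycle in degree `q+1`. Put
`(h c)(β)(x) = |A|⁻¹ ∑_(a ∈ A) (chr χ a)⁻¹ ...`. Precisely: `Φ(β)(x, y) = c(y, β_0, .., β_q)(x)`
(`y` inserted as the zeroth point, `Fin.cons y β`). Since `c` has values in `Hs`,
`c(y, β)(x t) = chr χ t • c(y, β)(x)`. Apply `S_Avg` to the regular function
`F(y, (β, x)) = c(Fin.cons y β)(x)` on `Bo m × ((Fin (q+1) → Bo m) × Bo m)` (its regularity: `c` is a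
finite sum of scalar regular functions times elements of `Hs`, which are regular functions). Define
`(h c)(β)(x) = |A|⁻¹ ∑_(a ∈ A) F(x a, (β, x))`. Then
`(h c)(β)(x t) = |A|⁻¹ ∑ c(x t a, β)(x t) = chr χ t • |A|⁻¹ ∑ F(x t a, (β, x)) = chr χ t • (h c)(β)(x)`
by the average property: `h c` has values in `Hs`. Equivariance:
`(h c)(b β)(b x) = |A|⁻¹ ∑ c(b x a, b β)(b x) = ρ b ((h c)(β)(x))`. Cocycle equation at the points
`(x a, β_0, .., β_(q+1))`, evaluated at `x`: `c(β)(x) = ∑_k (-1)^k c(x a, β without β_k)(x)`; average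
over `a`: `c = d (h c)`. `S` may be any subset of `{1}`. -/
def S_Acy : Prop := ∀ (m : ℕ) (V : Type) [AddCommGroup V] [Module ℂ V]
  (ρ : Representation ℂ (Bo m) V), Rat ρ → ∀ (S : Set (Bo m)) (χ : Fin m → ℤ),
  (∀ n ∈ S, n = 1) → ∀ θ, IsH ρ S χ θ → ∀ q, Van θ (q + 1)

/-- One step: `S` is generated by the one parameter group `u` and `S'`, the coordinate
`x(b) = b_ij / b_ii` is invariant under `S'`, and `u` normalises `S'`. -/
structure Step {m : ℕ} (i j : Fin m) (u : ℂ → Bo m) (S' S : Set (Bo m)) : Prop where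
  lt : i < j
  isU : IsU i j u
  mem : ∀ s, u s ∈ S
  sub : S' ⊆ S
  gen : ∀ n ∈ S, ∃ s, ∃ n', (n' = 1 ∨ n' ∈ S') ∧ n = u s * n'
  inv : ∀ n ∈ S', ∀ b : Bo m, mB (b * n) i j / mB (b * n) i i = mB b i j / mB b i i
  nor : ∀ n ∈ S', ∀ s, u (-s) * n * u s ∈ S'

/-- **Der.** Derivative and integral of a regular function along right translations by `u`.
(1) For every regular `f : B → V` there is a regular `g` with `d/ds f(x u(s)) = g(x u(s))` for all
`x, s` (tested by linear functionals `ℓ`): for a scalar polynomial function `f(x u(s))` is a polynomial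
in `s` whose coefficients are regular functions of `x` (entries: `(x u(s))_kl = x_kl + s x_ki [l = j]`),
take the coefficient of `s` at `s = 0`; `x u(s) u(r) = x u(s + r)` gives all `s`.
(2) For every regular `g` there is a regular `f` with derivative `g` in this sense, and explicitly
`f(x) = G(x, x_ij / x_ii)`, where `G(x, z) = ∫_0^z g(x u(y - x_ij/x_ii)) dy`: for a scalar `g`,
`g(x u(r)) = ∑_k g_k(x) r ^ k` with regular `g_k`, so with `z = x_ij / x_ii` (regular:
`x_ii⁻¹ = (x⁻¹)_ii`), `f(x) = ∫_0^z g(x u(y - z)) dy = ∑_k g_k(x) ∫_(-z)^0 r ^ k dr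
= ∑_k g_k(x) (-1) ^ k z ^ (k+1) / (k+1)`. Then `(x u(s))_ij / (x u(s))_ii = z + s`, so
`f(x u(s)) = ∫_0^(z+s) g(x u(y - z)) dy` has derivative `g(x u(s))`. The formula shows moreover: if
`S'` is as in `Step` and `g (x n) = g x` for `n ∈ S'`, then `f (x n) = f x` for `n ∈ S'`
(`x n u(r) = x u(r) (u(-r) n u(r))`); if `g (x t) = chr (χ + root i j) t • g x` for `t` in the torus,
then `f (x t) = chr χ t • f x` (`x t u(r) = x u(α(t) r) t`, `z(x t) = α(t)⁻¹ z(x)`,
`α(t) = t_ii / t_jj = chr (root i j) t`). -/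
def S_Der : Prop := ∀ (m : ℕ) (V : Type) [AddCommGroup V] [Module ℂ V] (i j : Fin m)
  (u : ℂ → Bo m), i < j → IsU i j u →
  (∀ f : Bo m → V, Reg f → ∃ g : Bo m → V, Reg g ∧ ∀ (ℓ : V →ₗ[ℂ] ℂ) (x : Bo m) (s : ℂ),
    HasDerivAt (fun r => ℓ (f (x * u r))) (ℓ (g (x * u s))) s) ∧
  (∀ (S' S : Set (Bo m)) (χ : Fin m → ℤ), Step i j u S' S →
    ∀ g : Bo m → V, g ∈ Hs V S' (χ + root i j) → ∃ f : Bo m → V, f ∈ Hs V S' χ ∧
      ∀ (ℓ : V →ₗ[ℂ] ℂ) (x : Bo m) (s : ℂ),
        HasDerivAt (fun r => ℓ (f (x * u r))) (ℓ (g (x * u s))) s)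

/-- **Stp.** The exact sequence `0 → Hs V S χ → Hs V S' χ → Hs V S' (χ + α) → 0`, `ι` = inclusion,
`π` = derivative along `u` (`S_Der`; unique since functionals separate points, so linear; it maps to
`Hs V S' (χ + root i j)`: for `n ∈ S'`, `f (x n u(s)) = f (x u(s) (u(-s) n u(s))) = f (x u(s))`; for a
torus element `t`, `x t u(s) = x u(α(t) s) t`, chain rule). Kernel: derivative `0` everywhere on the
line, so `f (x u(s)) = f x` for all `s` (`is_const_of_deriv_eq_zero`), so invariant under `S`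
(`Step.gen`). Surjective: `S_Der` (2). Equivariance: left translations commute with right ones; `ρ b`
is linear. -/
def S_Stp : Prop := ∀ (m : ℕ) (V : Type) [AddCommGroup V] [Module ℂ V]
  (ρ : Representation ℂ (Bo m) V), Rat ρ → ∀ (i j : Fin m) (u : ℂ → Bo m) (S' S : Set (Bo m))
  (χ : Fin m → ℤ), Step i j u S' S → ∀ θ' θ θ'', IsH ρ S χ θ' → IsH ρ S' χ θ →
  IsH ρ S' (χ + root i j) θ'' → ∃ (ι : Hs V S χ →ₗ[ℂ] Hs V S' χ)
    (π : Hs V S' χ →ₗ[ℂ] Hs V S' (χ + root i j)), Ses θ' θ θ'' ι π ∧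
    (∀ f x, (ι f).1 x = f.1 x) ∧
    ∀ (f : Hs V S' χ) (x : Bo m) (ℓ : V →ₗ[ℂ] ℂ),
      HasDerivAt (fun s => ℓ (f.1 (x * u s))) (ℓ ((π f).1 x)) 0

/-- Position of the root `(i, j)`: by columns, in a column from the diagonal upwards. -/
def pos {m : ℕ} (i j : Fin m) : ℕ := j.val * (j.val - 1) / 2 + (j.val - 1 - i.val)

/-- The unipotent matrices with zeros at the first `r` positions. -/
def Nr (m r : ℕ) : Set (Bo m) := {n | IsN n ∧ ∀ i j : Fin m, i < j → pos i j < r → mB n i j = 0}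

/-- **Chn.** The chain of subgroups. `pos` is a bijection from the pairs `i < j` to
`{0, .., m(m-1)/2 - 1}`. `Nr m r` is a group: with `n_kj = 0` for `i < k < j` (earlier positions) one
has `(n n')_ij = n_ij + n'_ij + ∑_(i<k<j) n_ik n'_kj`. For `pos i j = r`: `n = u(n_ij) n'` with
`n' ∈ Nr (r+1)`; invariance: `(b n)_ij = b_ij + ∑_(i≤k<j) b_ik n_kj`, `n_kj = 0` for `i ≤ k < j`,
`n ∈ Nr (r+1)`, and `(b n)_ii = b_ii`; `u(-s) n u(s) ∈ Nr (r+1)`: its entries at positions `≤ r` are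
in columns `≤ j`; right multiplication by `u(s)` adds `s` times column `i` to column `j`, left
multiplication by `u(-s)` subtracts `s` times row `j` from row `i`; at `(i, j)`: `0 + s - s = 0`. -/
def S_Chn : Prop := ∀ m : ℕ,
  (∀ r, r < m * (m - 1) / 2 → ∃ (i j : Fin m) (u : ℂ → Bo m), Step i j u (Nr m (r + 1)) (Nr m r)) ∧
  (∀ n ∈ Nr m (m * (m - 1) / 2), n = 1) ∧ ∀ n : Bo m, n ∈ Nr m 0 ↔ IsN n

/-- **Cd.** `H^q (B, V) = 0` for `q > m(m-1)/2` and every rational `V`. Claim for `r ≤ n =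
m(m-1)/2`, all `χ`: `Hs V (Nr m r) χ` has no cohomology in degrees `q > n - r`. `r = n`: `S_Acy`.
Step from `r + 1` to `r`: `S_Stp` with `S_Chn`, then `S_LA` with `f = id` (degree `q - 1 > n - (r+1)`
for the third term, `q` for the middle one). `r = 0`, `χ = 0`: `V ≅ Hs V (Nr m 0) 0` by constant
functions: `f (b n) = f b`, `f (b t) = f b`, every `b` is `n t` with `n` unipotent, `t` diagonal
(`t` has the diagonal of `b`), so `f b = f (1 · n · t) = f 1`. `S_VZ` (isomorphism). -/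
def S_Cd : Prop := ∀ (m : ℕ) (V : Type) [AddCommGroup V] [Module ℂ V]
  (ρ : Representation ℂ (Bo m) V), Rat ρ → ∀ q, m * (m - 1) / 2 < q → Van ρ q

/-- **SLa.** Rational representation of `SL_2`. A vector of weight `-1` fixed by the unipotent upper
triangular matrices is `0`. Let `ℓ` be a functional, `F(g) = ℓ (σ g v)`, a polynomial in the entries of
`g`. `p(y) = F((1 0; y 1))` is a polynomial. For `c ≠ 0`:
`(c -1; 1 0) = (1 0; c⁻¹ 1) (c 0; 0 c⁻¹) (1 -c⁻¹; 0 1)`, so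
`q(c) := F((c -1; 1 0)) = c⁻¹ p(c⁻¹)`, and `q` is a polynomial in `c`: `c ^ (D+1) q(c) = c ^ D p(1/c)`
is a polynomial of degree `≤ D = deg p`, while the left side has degree `≥ D + 1` if `q ≠ 0`. So
`q = 0`, `p = 0`, `ℓ v = p(0) = 0` for all `ℓ`. -/
def S_SLa : Prop := ∀ (V : Type) [AddCommGroup V] [Module ℂ V]
  (σ : Representation ℂ (SLm 2) V), Rat σ → ∀ v : V,
  (∀ g : SLm 2, mat g 1 0 = 0 → σ g v = (mat g 0 0)⁻¹ • v) → v = 0

/-- **SLb.** A vector fixed by the upper triangular matrices is fixed by `SL_2` (same computation: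
`q(c) = p(1/c)`, so `p` is constant, `(1 0; y 1) v = v`; `SL_2` is generated by triangular matrices). -/
def S_SLb : Prop := ∀ (V : Type) [AddCommGroup V] [Module ℂ V]
  (σ : Representation ℂ (SLm 2) V), Rat σ → ∀ v : V,
  (∀ g : SLm 2, mat g 1 0 = 0 → σ g v = v) → ∀ g, σ g v = v

/-- **SLc.** `E : V_(-1) → V_1` is bijective. `V_k` = vectors with `σ(diag(a, a⁻¹)) v = a ^ k v`,
`E v` = derivative of `σ(1 s; 0 1) v` at `s = 0`. `E v` exists for all `v` (`σ(1 s; 0 1) v` is a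
polynomial in `s`), `σ(1 s; 0 1) v` has derivative `σ(1 s; 0 1) E v` at `s`, `E` maps `V_k` to
`V_(k+2)` (`diag(a, a⁻¹) (1 s; 0 1) = (1 a²s; 0 1) diag(a, a⁻¹)`). Injective on `V_(-1)`: `E v = 0`
implies `v` fixed by `(1 s; 0 1)`, and upper triangular `g = diag(g_00, g_00⁻¹) (1 s; 0 1)`, so `v = 0`
by `S_SLa`. Surjective: `w ∈ V_1`; the span `W` of the orbit of `w` is finite dimensional (`Rat`) and
stable; `E` maps `W ∩ V_(-1)` injectively to `W ∩ V_1`, and these have the same dimension: the matrix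
`(0 1; -1 0)` exchanges them. -/
def S_SLc : Prop := ∀ (V : Type) [AddCommGroup V] [Module ℂ V]
  (σ : Representation ℂ (SLm 2) V), Rat σ → ∀ u : ℂ → SLm 2,
  (∀ s, mat (u s) 0 0 = 1 ∧ mat (u s) 0 1 = s ∧ mat (u s) 1 0 = 0 ∧ mat (u s) 1 1 = 1) →
  (∀ v : V, (∀ g : SLm 2, mat g 1 0 = 0 → mat g 0 1 = 0 → σ g v = (mat g 0 0)⁻¹ • v) →
    (∀ ℓ : V →ₗ[ℂ] ℂ, HasDerivAt (fun s => ℓ (σ (u s) v)) 0 0) → v = 0) ∧
  ∀ w : V, (∀ g : SLm 2, mat g 1 0 = 0 → mat g 0 1 = 0 → σ g w = mat g 0 0 • w) →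
    ∃ v : V, (∀ g : SLm 2, mat g 1 0 = 0 → mat g 0 1 = 0 → σ g v = (mat g 0 0)⁻¹ • v) ∧
      ∀ ℓ : V →ₗ[ℂ] ℂ, HasDerivAt (fun s => ℓ (σ (u s) v)) (ℓ w) 0

/-- **Emb.** For `j = i + 1`: the block embedding `SL_2 → SL_m` exists and is a homomorphism and a
morphism; for upper triangular `g` the image is in `B`; the one parameter group `u` exists. -/
def S_Emb : Prop := ∀ (m : ℕ) (i j : Fin m), j.val = i.val + 1 →
  (∃ e : SLm 2 →* SLm m, (∀ g, Blk i j g (e g)) ∧ Mor e) ∧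
  (∀ g : SLm 2, mat g 1 0 = 0 → ∃ b : Bo m, Blk i j g b.1) ∧
  (∃ u : ℂ → Bo m, IsU i j u ∧ Mor u) ∧
  ∀ g x y, Blk i j g x → Blk i j g y → x = y

/-- **L0.** No invariants: an invariant `v` of `ρ` satisfies, for upper triangular `g ∈ SL_2` with
block matrix `b`: `v = ρ b v = g_00 • σ g v`, so `σ g v = g_00⁻¹ • v`: `S_SLa`. (`S_Inv`, `S_Emb`.) -/
def S_L0 : Prop := ∀ (m : ℕ) (i j : Fin m), j.val = i.val + 1 → ∀ (V : Type) [AddCommGroup V]
  [Module ℂ V] (ρ : Representation ℂ (Bo m) V) (σ : Representation ℂ (SLm 2) V),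
  AlphaMod i j 1 ρ σ → Van ρ 0

/-- **AM.** The module `A = {f : P → V regular, f(p l) = f(p) for l ∈ L}`, `P` = the matrices of `SL_m`
with zeros below the diagonal except at `(j, i)`, `L` = those which also have zeros above the diagonal
except at `(i, j)`; `B` acts by `(b f)(p) = ρ b (f (b⁻¹ p))`, `SL_2` by `(g f)(p) = σ g (f (e(g)⁻¹ p))`
(`e` = block embedding, `e(g) ∈ L`). Both are rational (`Reg.curry`, `Reg.codRestrict`), `AlphaMod`
with the same `c`. `ι v` = constant function. The map `λ : P → L` (keep the diagonal and the entries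
`(i, j)`, `(j, i)`) is a homomorphism and a morphism (`j = i + 1`), `n'(p) = p λ(p)⁻¹` is in `B`,
`n'(p l) = n'(p)`. So restriction to `B` is an isomorphism of `A` with the functions on `B` which are
right invariant under the torus and `u`: `f(p) = f(n'(p))`; for `b ∈ B`: `b = n'(b) λ(b)`, `λ(b)` is a
product of an element of the torus and some `u(s)`. -/
def S_AM : Prop := ∀ (m : ℕ) (i j : Fin m), j.val = i.val + 1 → ∀ (c : ℤ) (V : Type)
  [AddCommGroup V] [Module ℂ V] (ρ : Representation ℂ (Bo m) V)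
  (σ : Representation ℂ (SLm 2) V), AlphaMod i j c ρ σ → ∀ u : ℂ → Bo m, IsU i j u →
  ∃ (A : Type) (_ : AddCommGroup A) (_ : Module ℂ A) (ρA : Representation ℂ (Bo m) A)
    (σA : Representation ℂ (SLm 2) A) (ι : V →ₗ[ℂ] A), AlphaMod i j c ρA σA ∧
    Function.Injective ι ∧ (∀ b v, ι (ρ b v) = ρA b (ι v)) ∧ (∀ g v, ι (σ g v) = σA g (ι v)) ∧
    ∀ θ, IsH ρ (Set.range u) 0 θ → ∃ e : A ≃ₗ[ℂ] Hs V (Set.range u) 0,
      ∀ b a, e (ρA b a) = θ b (e a)

/-- **VA.** `c = 1`: the module `Hs V (range u) 0` has no cohomology in positive degrees. `S_Stp` for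
`S' = ∅`, `S = range u` (`Step`: clear), `χ = 0`: `0 → Hs V (range u) 0 → Hs V ∅ 0 → Hs V ∅ α → 0`,
`S_Acy`. Degrees `≥ 2`: `S_LA` with `f = id`. Degree `1`: `S_LF`: an invariant `h` of `Hs V ∅ α` is
`h(b) = ρ b w`, `w = h(1)`, with `ρ t w = α(t) w` for torus elements `t` (`h(t) = α(t) h(1)`). For
`g = diag(a, a⁻¹)`: `ρ(block g) = a σ(g)`, `α = a²`: `σ g w = a w`. `S_SLc`: `v` with
`σ g v = a⁻¹ v`, `E v = w`. For `t` in the torus: `ρ t v` has also `σ`-weight `-1` (`ρ t` commutes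
with `ρ (block g) = a σ g`) and `E (ρ t v) = α(t)⁻¹ ρ t (E v) = w`
(`ρ(u s) ρ t = ρ t ρ(u (α(t)⁻¹ s))`), so `ρ t v - v` has derivative `0` and is `0` by `S_SLc`. So
`f(b) = ρ b v` is in `Hs V ∅ 0`, invariant, and its derivative along `u` is `ρ b w = h(b)`. -/
def S_VA : Prop := ∀ (m : ℕ) (i j : Fin m), j.val = i.val + 1 → ∀ (V : Type) [AddCommGroup V]
  [Module ℂ V] (ρ : Representation ℂ (Bo m) V) (σ : Representation ℂ (SLm 2) V),
  AlphaMod i j 1 ρ σ → ∀ u : ℂ → Bo m, IsU i j u → ∀ θ, IsH ρ (Set.range u) 0 θ →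
  ∀ q, Van θ (q + 1)

/-- **L** (the vanishing lemma). Induction on `q` for all `V` at once: `q = 0`: `S_L0`. Step:
`0 → V → A → A / ι V → 0` with `A` of `S_AM`; the quotient carries both representations (`mapQ`), it is
rational and `AlphaMod i j 1`; `A` has no cohomology in positive degrees (`S_VA` and the isomorphism,
`S_VZ`); `S_LA` with `f = id`: `Van (quotient) q` and `Van A (q+1)` imply `Van ρ (q+1)`. -/
def S_L : Prop := ∀ (m : ℕ) (i j : Fin m), j.val = i.val + 1 → ∀ (V : Type) [AddCommGroup V]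
  [Module ℂ V] (ρ : Representation ℂ (Bo m) V) (σ : Representation ℂ (SLm 2) V),
  AlphaMod i j 1 ρ σ → ∀ q, Van ρ q

end PV
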