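import Pool.Agent.Lib.MP_3b3418_ag.PV.SpecD
import Pool.Agent.Lib.MP_3b3418_ag.PV.Red

/-!
# Statements, part M: the module of the normal forms of polyvectors, and the combinatorics
-/

set_option autoImplicit false

namespace PV

open MP3s

/-- Polynomial maps `q : 𝔫 → ⋀^j (𝔰𝔩_m × 𝔫)` in normal form, of weight `k`. -/
def Mjk (m j : ℕ) (k : ℤ) : Submodule ℂ (Nn m → Wedge j (Tot m)) where
  carrier := {q | Reg q ∧ (∀ ν, wL j (red ν) (q ν) = q ν) ∧
    ∀ c : ℂ, c ≠ 0 → ∀ ν, q (scN (c ^ 2) ν) = c ^ k • wL j (dilTot (c ^ 2)) (q ν)}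
  add_mem' {q q'} h h' := ⟨h.1.add h'.1, fun ν => by
      rw [Pi.add_apply, map_add, h.2.1, h'.2.1], fun c hc ν => by
      rw [Pi.add_apply, Pi.add_apply, h.2.2 c hc, h'.2.2 c hc, map_add, smul_add]⟩
  zero_mem' := ⟨Reg.zero, fun ν => by rw [Pi.zero_apply, map_zero], fun c hc ν => by
      rw [Pi.zero_apply, Pi.zero_apply, map_zero, smul_zero]⟩
  smul_mem' a q h := ⟨h.1.cSmul a, fun ν => by
      rw [Pi.smul_apply, map_smul, h.2.1], fun c hc ν => by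
      rw [Pi.smul_apply, Pi.smul_apply, h.2.2 c hc, map_smul, smul_comm]⟩

/-- The map `p ↦ b p b⁻¹` of `𝔰𝔩_m × 𝔫`. -/
def Ad {m : ℕ} (b : Bo m) : Tot m →ₗ[ℂ] Tot m := conjTot (b⁻¹ : Bo m).1 (b⁻¹ : Bo m).2

/-- The action `ν ↦ b⁻¹ ν b`. -/
def cN {m : ℕ} (b : Bo m) (ν : Nn m) : Nn m := conjN b.1 b.2 ν

/-- `ρM` is the representation `(b q)(ν) = red_ν (b q(b⁻¹ ν b) b⁻¹)` of `B` on `Mjk`. -/
def IsM {m j : ℕ} {k : ℤ} (ρM : Representation ℂ (Bo m) (Mjk m j k)) : Prop :=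
  ∀ (b : Bo m) (q : Mjk m j k) (ν : Nn m),
    (ρM b q).1 ν = wL j (red ν) (wL j (Ad b) (q.1 (cN b ν)))

/-- **Rd.** Facts on normal forms. (1) `red ν p` has strictly lower triangular first component.
(2), (5) direct. (3) `p - red ν' p ∈ OrbT ν'` (`red_sub_mem`), `ν' = b⁻¹ ν b`, `Ad b` maps `OrbT ν'` to
`OrbT ν` (`orb_conj` for `b⁻¹`, or directly), killed by `red ν` (`red_orb`). (4) regularity: for
`w = ιMulti p` (these span `⋀^j`): `⋀^j (red ν) w = ιMulti (red ν p_r)`, and `ν ↦ red ν p_r` is regular,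
`ιMulti` is multilinear (expand). The same for `b ↦ ⋀^j (Ad b) w`, `b ↦ ⋀^j (conjTot b) w` (entries of
`b⁻¹`: `S_Mor`). -/
def S_Rd : Prop := ∀ m : ℕ,
  (∀ (ν ν' : Nn m) p, red ν' (red ν p) = red ν p) ∧
  (∀ (c : ℂ) (ν : Nn m) p, red (scN c ν) (dilTot c p) = dilTot c (red ν p)) ∧
  (∀ (b : Bo m) (ν : Nn m) p, red ν (Ad b (red (cN b ν) p)) = red ν (Ad b p)) ∧
  (∀ (j : ℕ) (w : Wedge j (Tot m)), Reg (fun ν : Nn m => wL j (red ν) w) ∧
    Reg (fun b : Bo m => wL j (Ad b) w) ∧ Reg (fun b : Bo m => wL j (conjTot b.1 b.2) w)) ∧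
  (∀ (b b' : Bo m) (p : Tot m) (c : ℂ), Ad b (Ad b' p) = Ad (b * b') p ∧ Ad 1 p = p ∧
    dilTot c (Ad b p) = Ad b (dilTot c p) ∧ Ad b (conjTot b.1 b.2 p) = p) ∧
  (∀ (b b' : Bo m) (ν : Nn m) (c : ℂ), cN b' (cN b ν) = cN (b * b') ν ∧ cN 1 ν = ν ∧
    cN b (scN c ν) = scN c (cN b ν)) ∧
  Mor (fun p : Bo m × Nn m => cN p.1 p.2)

/-- **MR.** The representation of `B` on `Mjk` exists and is rational.
`(b (b' q))(ν) = ⋀(red_ν Ad b red_(ν') Ad b') (q (b'⁻¹ b⁻¹ ν b b'))`, `ν' = b⁻¹ ν b`, and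
`red_ν Ad b red_(ν') = red_ν Ad b` (`S_Rd` (3), `wL_comp`). `b = 1`: normal form. Normal form of the
result: `S_Rd` (1). Weight: `S_Rd` (2), (5), (6). Regular jointly in `(b, ν)`: `Reg.act` three times;
then `Reg.curry`, `Reg.codRestrict`. -/
def S_MR : Prop := ∀ (m j : ℕ) (k : ℤ),
  (∃ ρM : Representation ℂ (Bo m) (Mjk m j k), IsM ρM) ∧
  ∀ ρM : Representation ℂ (Bo m) (Mjk m j k), IsM ρM → Rat ρM

/-- Positive roots: the pairs `a < b`. -/
abbrev Pr (m : ℕ) : Type := {p : Fin m × Fin m // p.1 < p.2}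

/-- The root `ε_a - ε_b` of the pair `a < b`. -/
def rt {m : ℕ} (p : Pr m) : Fin m → ℤ := root p.1.1 p.1.2

theorem bv_strict {m : ℕ} (p : Pr m) : Strict (Matrix.single p.1.1 p.1.2 (1 : ℂ)) := by
  intro a b hab
  refine Matrix.single_apply_of_ne _ _ _ _ _ fun h => ?_
  have h1 := p.2
  rw [h.1, h.2] at h1
  exact absurd h1 (not_lt.2 hab)

theorem bv_trace {m : ℕ} (p : Pr m) : (Matrix.single p.1.2 p.1.1 (1 : ℂ)).trace = 0 := by
  refine Finset.sum_eq_zero fun a _ => ?_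
  refine Matrix.single_apply_of_ne _ _ _ _ _ fun h => ?_
  have h1 := p.2
  rw [h.1, h.2] at h1
  exact lt_irrefl _ h1

/-- Basis vectors of the space of the normal forms: `(0, E_ab)` and `(E_ba, 0)`. -/
def bv {m : ℕ} (s : Bool) (p : Pr m) : Tot m :=
  if s then ((0 : Sl m), (⟨Matrix.single p.1.1 p.1.2 1, bv_strict p⟩ : Nn m))
  else ((⟨Matrix.single p.1.2 p.1.1 1, bv_trace p⟩ : Sl m), (0 : Nn m))

/-- The wedge product of `j` vectors. -/
noncomputable def wi {V : Type} [AddCommGroup V] [Module ℂ V] {j : ℕ} (v : Fin j → V) :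
    Wedge j V := exteriorPower.ιMulti ℂ j v

/-- The monomial `ν^β bv(u_1) ∧ .. ∧ bv(u_j)`. -/
noncomputable def mon {m j : ℕ} (β : Pr m → ℕ) (u : Fin j → Bool × Pr m) :
    Nn m → Wedge j (Tot m) := fun ν =>
  (∏ p : Pr m, matN ν p.1.1 p.1.2 ^ β p) • wi fun r => bv (u r).1 (u r).2

/-- The condition on the weight of the monomial. -/
def Dg {m j : ℕ} (k : ℤ) (β : Pr m → ℕ) (u : Fin j → Bool × Pr m) : Prop :=
  2 * (∑ p, (β p : ℤ)) = k + 2 * ((Finset.univ.filter fun r => (u r).1 = true).card : ℤ)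

/-- The weight of the monomial for the torus. -/
def wt {m j : ℕ} (β : Pr m → ℕ) (u : Fin j → Bool × Pr m) : Fin m → ℤ :=
  (∑ r, if (u r).1 then rt (u r).2 else -rt (u r).2) - ∑ p, (β p : ℤ) • rt p

/-- **MS.** `Mjk` is spanned by the monomials (with `u` injective and of the right weight) and finite
dimensional. Let `q ∈ Mjk`. `q(ν) = ⋀(red_0) q(ν)` (`S_Rd` (1)), and `red_0 p` is in the span of the
`bv`. `q = ∑ a_k(ν) w_k`, `w_k` a sum of wedge products, so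
`q = ∑_x c_x x`, finite sum over monomials `x = mon β u` (`a_k` is a polynomial in the entries
`ν_ab`, `a < b`, the others are `0`; if `u` is not injective then `x = 0`). For `x = mon β u`:
`x(c² ν) = c^(2 |β|) x(ν)`, `⋀(dilTot c²) x(ν) = c^(2 n_u) x(ν)`, `n_u` = number of `r` with
`(u r).1 = true`. So `q(ν) = ∑_x c_x c^(2|β| - 2 n_u - k) x(ν)` for all `c ≠ 0`. Sum over the `N`-th roots
of unity `c`, `N` larger than all exponents: only the `x` with exponent `0` (`Dg`) remain. There are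
finitely many `x` with `Dg k β u` (`n_u ≤ j` bounds `|β|`). -/
def S_MS : Prop := ∀ (m j : ℕ) (k : ℤ),
  (∀ (β : Pr m → ℕ) (u : Fin j → Bool × Pr m), Dg k β u → mon β u ∈ Mjk m j k) ∧
  Module.Finite ℂ (Mjk m j k) ∧
  ∀ q : Mjk m j k, q.1 ∈ Submodule.span ℂ {x | ∃ (β : Pr m → ℕ) (u : Fin j → Bool × Pr m),
    Function.Injective u ∧ Dg k β u ∧ x = mon β u}

/-- **MW.** The monomials are weight vectors: `(t⁻¹ ν t)_ab = (t_bb / t_aa) ν_ab`,
`Ad t E_ab = (t_aa / t_bb) E_ab`, `Ad t E_ba = (t_bb / t_aa) E_ba`, and `red ν` fixes the `bv`. -/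
def S_MW : Prop := ∀ (m j : ℕ) (k : ℤ) (ρM : Representation ℂ (Bo m) (Mjk m j k)), IsM ρM →
  WS {μ | ∃ (β : Pr m → ℕ) (u : Fin j → Bool × Pr m), Function.Injective u ∧ Dg k β u ∧
    μ = wt β u} ρM

/-- **BA.** From cochains on `Ñ` to cochains of `B`: `φ(β)(g)(ν) = ⋀(nf ν) (s.val g ν β)`.
Equivariance: `φ(b β)(g)(ν) = (ρM b (φ(β)(g b)))(ν) = ⋀(red_ν Ad b nf_(ν')) (s.val (g b) ν' β)`,
`ν' = b⁻¹ ν b`, and `s.val (g b) ν' (b⁻¹ (b β)) = ⋀(conjT b ν) (s.val g ν (b β))`;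
`red_ν Ad b nf_(ν') conjT b ν = nf_ν` (on `proj ν p`: `red_ν Ad b red_(ν') (conjTot b p) =
red_ν (Ad b (conjTot b p)) = red_ν p`). Regularity: `φ(β)(g)(ν) = ⋀(red ν) (P (g, ν, β))` is regular
in `(g, ν, β)` jointly (`S_Rd` (4), `Reg.act`); `Reg.curry` and `Reg.codRestrict` twice. Weight: `S_Rd`
(2): `nf (c ν) (dilT c ν v) = dilTot c (nf ν v)`. -/
def S_BA : Prop := ∀ (m j p : ℕ) (k : ℤ) (ρM : Representation ℂ (Bo m) (Mjk m j k)), IsM ρM →
  ∀ θ, IsR ρM θ → ∀ s : Chain m j p, s.HasWeight k →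
  ∃ φ : (Fin (p + 1) → Bo m) → RG m (Mjk m j k), IsCoch θ p φ ∧
    ∀ β g ν, ((φ β).1 g).1 ν = wL j (nf ν) (s.val g ν β)

/-- **BB.** Back: `t.val g ν β = ⋀(proj ν) (φ(β)(g)(ν))`. Regularity: `φ` is a finite sum of
`a_k(β) F_k`, `F_k = ∑ b_kl(g) q_kl`, `q_kl` regular, so `φ(β)(g)(ν)` is regular in `(g, ν, β)` jointly.
Equivariance: `φ(b⁻¹ β)(g b) = (θ b⁻¹ φ(β))(g b) = ρM b⁻¹ (φ(β)(g))`, whose value at `b⁻¹ ν b` is
`⋀(red Ad b⁻¹) (φ(β)(g)(ν))` (`cN b⁻¹ (cN b ν) = ν`), `proj (red p) = proj p` (`proj_red`),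
`proj (Ad b⁻¹ p) = conjT b (proj p)` (`Ad b⁻¹ = conjTot b`). Weight: definition of `Mjk`,
`proj (dilTot c p) = dilT c (proj p)`. -/
def S_BB : Prop := ∀ (m j p : ℕ) (k : ℤ) (ρM : Representation ℂ (Bo m) (Mjk m j k)), IsM ρM →
  ∀ θ, IsR ρM θ → ∀ φ : (Fin (p + 1) → Bo m) → RG m (Mjk m j k), IsCoch θ p φ →
  ∃ t : Chain m j p, t.HasWeight k ∧
    ∀ g ν β, t.val g ν β = wL j (proj ν) (((φ β).1 g).1 ν)

/-- **BC.** Let `s` be a cocycle of weight `k`, `φ` as in `S_BA`, `cob φ = 0`. `Trv` gives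
`(τ x - 1) φ = cob ψ` (`= 0` if `p = 0`), `((τ x φ)(β))(g) = φ(β)(x⁻¹ g)`. Apply `⋀(proj ν)` and
`proj ν ∘ nf ν = id` (`proj_nf`, `wL_comp`, `wL_id`), `t` as in `S_BB` for `ψ`. -/
def S_BC : Prop := ∀ (m i j : ℕ) (ρM : Representation ℂ (Bo m) (Mjk m j (-((i : ℤ) + j)))),
  IsM ρM → Rat ρM → Trv ρM i → ActsTrivially m i j

/-- Scores of the tournament on `{0, .., m-1}` in which `b` beats `a` for `(a, b) ∈ A` and `a` beats `b`
for the other pairs `a < b`. -/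
def sc {m : ℕ} (A : Finset (Pr m)) : Fin m → ℤ := del m - ∑ p ∈ A, rt p

/-- `v` beats `w`. -/
def Bt {m : ℕ} (A : Finset (Pr m)) (v w : Fin m) : Prop :=
  (∃ h : v < w, (⟨(v, w), h⟩ : Pr m) ∉ A) ∨ ∃ h : w < v, (⟨(w, v), h⟩ : Pr m) ∈ A

open Classical in
/-- **Bt.** `sc A v` is the number of `w` beaten by `v`: `del m v` is the number of `w > v`; the
coordinate `v` of `∑_A rt` is (number of `(v, w) ∈ A`) - (number of `(w, v) ∈ A`). The sum of
`sc A v` over all `v` is `m(m-1)/2`. -/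
def S_Bt : Prop := ∀ (m : ℕ) (A : Finset (Pr m)),
  (∀ v, sc A v = ((Finset.univ.filter fun w => Bt A v w).card : ℤ)) ∧
  (∀ v w, v ≠ w → (Bt A v w ↔ ¬ Bt A w v)) ∧ (∀ v, ¬ Bt A v v) ∧
  ∀ v, ∑ p : Pr m, rt p v = 2 * del m v - ((m : ℤ) - 1)

/-- **Ts.** Tournament scores. (1) clear. (2), (3): if `v` beats all others, the others have one loss;
if `v` beats nobody, the others beat `v`. (4) the sum of all scores. (5) Landau: the games among the
first `r` vertices give `r(r-1)/2` points. (6) `sc A` injective: scores are `0, .., m-1` in some order.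
For `t` let `S` be the set of the `r = m - t` vertices with score `≥ t`: the sum of their scores is
`t + .. + (m-1) = r(r-1)/2 + r(m-r)`, which is the maximal possible number of points, so every vertex
of `S` beats every vertex outside of `S`. Hence `v` beats `w` iff `sc A v > sc A w`, and `(a, b) ∈ A` iff
`b` beats `a` iff `sc A a < sc A b`: `invn (sc A) = |A|`. -/
def S_Ts : Prop := ∀ (m : ℕ) (A : Finset (Pr m)),
  (∀ v, 0 ≤ sc A v ∧ sc A v ≤ (m : ℤ) - 1) ∧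
  (∀ v w, v ≠ w → sc A v = (m : ℤ) - 1 → sc A w ≤ (m : ℤ) - 2) ∧
  (∀ v w, v ≠ w → sc A v = 0 → 1 ≤ sc A w) ∧
  (2 * ∑ v, sc A v = (m : ℤ) * (m - 1)) ∧
  (∀ r : ℕ, r ≤ m → (r : ℤ) * (r - 1) ≤ 2 * ∑ v with v.val < r, sc A v) ∧
  (Function.Injective (sc A) → invn (sc A) = A.card)

/-- **Ds.** Distinct integers. (1) `η` injective with values in `[0, m-1]` is a permutation of `δ`.
(2) a finite set of `n` integers `≤ M` has sum `≤ n M - n(n-1)/2` (induction, remove the maximum);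
(3) the same for `≥ M`. -/
def S_Ds : Prop :=
  (∀ (m : ℕ) (η : Fin m → ℤ), Function.Injective η → (∀ v, 0 ≤ η v ∧ η v ≤ (m : ℤ) - 1) →
    IsPm η) ∧
  (∀ (X : Finset ℤ) (M : ℤ), (∀ x ∈ X, x ≤ M) →
    2 * ∑ x ∈ X, x ≤ 2 * X.card * M - (X.card : ℤ) * (X.card - 1)) ∧
  ∀ (X : Finset ℤ) (M : ℤ), (∀ x ∈ X, M ≤ x) →
    2 * (X.card : ℤ) * M + (X.card : ℤ) * (X.card - 1) ≤ 2 * ∑ x ∈ X, x

/-- **Cut.** `η` injective with at most `m - 2` descending pairs has a free cut `r`. Claim: the number of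
crossed cuts (`0 < r < m` such that `η_p > η_q` for some `p < r ≤ q`) is at most the number of descending
pairs. Induction on the latter: if there is no adjacent descent, `η` is increasing and no cut is
crossed; else swap an adjacent descent at `(r-1, r)`: one descending pair less (compare `S_Iv`), the
status of the cuts `≠ r` does not change. There are `m - 1` cuts. (`invn` counts the ascending pairs,
`m(m-1)/2 - invn η` the descending ones.) -/
def S_Cut : Prop := ∀ (m : ℕ) (η : Fin m → ℤ), 2 ≤ m → Function.Injective η →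
  m * (m - 1) / 2 + 2 ≤ invn η + m → ∃ r : ℕ, 0 < r ∧ r < m ∧
    ∀ p q : Fin m, p.val < r → r ≤ q.val → η p < η q

/-- **K3.** `η = sc A + ∑_p γ_p rt p` with `γ ≥ 0`, injective, `invn η ≥ m(m-1)/2 - m + 2`: `η` is a
permutation of `δ`. (`m ≤ 1`: `η = δ`.) Take the free cut `r` of `S_Cut`, `X` = the values `η_p`, `p < r`,
`Y` = the other values, `M = max X < min Y`. `∑ X ≥ r(r-1)/2` (`S_Ts` (5); every root has coordinate sum
`≥ 0` over the first `r` coordinates), and `∑ X ≤ r M - r(r-1)/2` (`S_Ds`), so `M ≥ r - 1`.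
`∑ Y = m(m-1)/2 - ∑ X ≤ m(m-1)/2 - r(r-1)/2` and `∑ Y ≥ (m-r)(M+1) + (m-r)(m-r-1)/2`, so `M ≤ r - 1`.
So `X ≤ r - 1`, `Y ≥ r`. If some `x ∈ X` is `< 0`: `∑ X ≤ x + (r-1)(r-1) - (r-1)(r-2)/2 < r(r-1)/2`,
contradiction; if some `y ∈ Y` is `≥ m`: `∑ Y ≥ y + (m-r-1) r + (m-r-1)(m-r-2)/2`, too large (it exceeds
`m(m-1)/2 - r(r-1)/2`). `S_Ds` (1). -/
def S_K3 : Prop := ∀ (m : ℕ) (A : Finset (Pr m)) (γ : Pr m → ℕ) (η : Fin m → ℤ),
  η = sc A + ∑ p, (γ p : ℤ) • rt p → Function.Injective η →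
  m * (m - 1) / 2 + 2 ≤ invn η + m → IsPm η

/-- **K1.** `η = sc A + rt p`, `p = (a, b)`, injective, `invn η < |A|`: `η` is a permutation of `δ`.
Write `s = sc A`. If all values are in `[0, m-1]`: `S_Ds` (1). Else `s_a = m - 1`, `η_a = m` or `s_b = 0`,
`η_b = -1` (`S_Ts` (1)). If `η_a = m`: the other `m - 1` values are distinct, `≤ m - 2`, with sum
`m(m-1)/2 - m`; if they were `≥ 0` the sum would be `(m-1)(m-2)/2`, one more: so one of them is `-1`,
which must be `η_b`. If `η_b = -1`: the other values are `≥ 1` with sum `m(m-1)/2 + 1`, if they were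
`≤ m - 1` the sum would be `m(m-1)/2`, so `η_a = m`. So `s_a = m - 1`, `s_b = 0`, and the other scores
are distinct (equal to `η`) and in `[1, m-2]`: `s` is injective with the same order relations as `η`,
`invn η = invn s = |A|` (`S_Ts` (6)), contradiction. -/
def S_K1 : Prop := ∀ (m : ℕ) (A : Finset (Pr m)) (p : Pr m) (η : Fin m → ℤ),
  η = sc A + rt p → Function.Injective η → invn η < A.card → IsPm η

/-- The condition on `(i, j)`. -/
def Reg3 (m i j : ℕ) : Prop :=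
  j ≤ i + 2 ∨ m * (m - 1) ≤ i + j + 2 ∨ m * (m - 1) / 2 + 2 ≤ i + m

/-- **Cb.** Combinatorics, all together. Let `A`, `C` be the sets of the `p` with `(true, p)`,
`(false, p)` in the range of `u`. `|A| + |C| = j`, `2 |β| + i + j = 2 |A|`, so `|C| + |β| = k`,
`|A| = |β| + i + k` with `2k = j - i`; `η = del m - wt β u = sc A + ∑_C rt + ∑ β rt`.
Third condition (and `i = invn η`): `S_K3` with `γ = β + 1_C`. First condition: `k = 0`: `η = sc A`,
`S_Ts` (1), `S_Ds` (1). `k = 1`: `η = sc A + rt p`, `|A| ≥ i + 1`: `S_K1`. Second condition: put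
`A' = C^c`, `C' = A^c`: `sc A + ∑_C rt = sc A' + ∑_(C') rt` (difference: `- ∑_A + ∑_C + ∑_(C^c) - ∑_(A^c)
= 0`), `n = m(m-1)/2` positive roots, `|C'| + |β| = n - i - k =: T ≤ 1`,
`|A'| = n - |C| = n - k + |β| = i + T + |β|`: as before. -/
def S_Cb : Prop := ∀ (m i j : ℕ), Reg3 m i j → ∀ (β : Pr m → ℕ) (u : Fin j → Bool × Pr m),
  Function.Injective u → Dg (-((i : ℤ) + j)) β u → Function.Injective (del m - wt β u) →
  invn (del m - wt β u) = i → IsPm (del m - wt β u)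

/-- **Fin.** The theorem: `S_Fil` with `Λ` of `S_MW` and `M = Mjk m j (-(i+j))`, `S_OneD` with `S_Cb`,
then `S_BC`. -/
def S_Fin : Prop := ∀ m i j : ℕ, Reg3 m i j → ActsTrivially m i j

end PV
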